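import Pool.Agent.H85.SA.Def

/-! # [SF2 K4] THE ALGORITHM: RUNGE'S CERTIFICATE (type 2): the curve has at least two places at infinity over `ℚ`

`F` a curve, `G(t,y) = F(t - c y, y)`, functions = pairs `A/D` (H85/SA/Def: `Eqv`, `Bd`, `Ig`).
`Rl G Z D A`: a relation `∑_{j ≤ N} s_j(t) (A/D)^(N-j) = 0` such that for two integers `t1`, `t2` the polynomials
`∑ s_j(t1) X^(N-j)`, `∑ s_j(t2) X^(N-j)` are coprime over `ℚ`.
`Cer2 F Z d`: `(1 + a φ_i^2) h_i = 1`, `v ∑ c_i h_i = 1`, all `h_i` and `v` are regular at infinity, `φ_i` is integral over `ℤ[t]`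
(times an integer) and satisfies a relation as in `Rl`.
SOUNDNESS (Snd.lean): at an integer point with `|t|` large `v`, `h_i` are bounded, so one `h_i` is not small, so one `φ_i` is bounded;
`φ_i` is a rational number with bounded denominator, the relation is an equation for `t` with bounded coefficients, not identically zero. -/

namespace Pool.Agent.H65.RG

open Pool.Agent.H98.AL Pool.Agent.H85.SA

/-- `∑_{j ≤ N} s_j(τ) X^(N-j)` -/
noncomputable def spl (N : ℕ) (s : ℕ → Polynomial ℤ) (τ : ℤ) : Polynomial ℤ :=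
  ∑ j ∈ Finset.range (N + 1), Polynomial.C ((s j).eval τ) * Polynomial.X ^ (N - j)

/-- a relation between `A/D` and `t` -/
def Rl (G : P2) (Z : ℕ) (D A : P2) : Prop :=
  ∃ (N : ℕ) (s : ℕ → Polynomial ℤ) (Q : P2) (t1 t2 : ℤ) (U V : Polynomial ℤ) (N1 : ℤ), N ≤ Z ∧ N1 ≠ 0 ∧
    (∀ j ≤ N, Sz Z (s j)) ∧ ∑ j ∈ Finset.range (N + 1), em (s j) * A ^ (N - j) * D ^ j = G * Q ∧
      U * spl N s t1 + V * spl N s t2 = Polynomial.C N1

/-- the data of Runge's certificate -/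
structure Dr : Type where
  /-- the coordinate is `t = x + c y` -/
  c : ℕ
  k : ℕ
  a : ℕ
  D : Polynomial ℤ
  phi : ℕ → P2
  h : ℕ → P2
  cc : ℕ → ℤ
  v : P2

/-- Runge's certificate (type 2) for the curve `F`, of size at most `Z` -/
structure Cer2 (F : P2) (Z : ℕ) (d : Dr) : Prop where
  Z2 : 2 ≤ Z
  cZ : d.c ≤ Z
  lc : MvPolynomial.coeff (Finsupp.single 1 (shf d.c F).totalDegree) (shf d.c F) ≠ 0
  dZ : (shf d.c F).totalDegree ≤ Z
  FZ : ∀ t, |MvPolynomial.coeff t (shf d.c F)| ≤ (Z : ℤ)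
  kZ : d.k ≤ Z
  a1 : 1 ≤ d.a
  D0 : d.D ≠ 0
  DZ : Sz Z d.D
  ccZ : ∀ i < d.k, |d.cc i| ≤ (Z : ℤ)
  eqh : ∀ i < d.k, Eqv (shf d.c F) ((em d.D ^ 2 + MvPolynomial.C (d.a : ℤ) * d.phi i ^ 2) * d.h i) (em d.D ^ 3)
  bh : ∀ i < d.k, Bd (shf d.c F) Z (em d.D) (d.h i)
  eqs : Eqv (shf d.c F) (d.v * ∑ i ∈ Finset.range d.k, MvPolynomial.C (d.cc i) * d.h i) (em d.D ^ 2)
  bv : Bd (shf d.c F) Z (em d.D) d.v
  ig : ∀ i < d.k, Ig (shf d.c F) Z (em d.D) (d.phi i)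
  rl : ∀ i < d.k, Rl (shf d.c F) Z (em d.D) (d.phi i)

/-- `2 Z^2 (1 + 2 Z)` -/
def K2 (Z : ℕ) : ℕ := 2 * Z ^ 2 * (1 + 2 * Z)

/-- bound for the coefficients of the equation for `t` -/
def Z2' (Z : ℕ) : ℕ := (Z + 1) * Z * (Z * K2 Z) ^ Z

/-- the bound for the integer points -/
def Ph2 (Z : ℕ) : ℕ := (1 + Z ^ 2 * (Z + 1) ^ 2) * (2 * Z2' Z)

end Pool.Agent.H65.RG
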