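import Pool.Agent.H12.SF2.Bdo

/-! # [SF2 K4] THEOREM SF, phase 2 (the algorithm): Runge's certificate, the relation between `φ` and `x`

`φ` integral over `ℚ[x]`, transcendental over `ℚ`: a relation `∑_{j ≤ N} s_j(x) φ^(N-j) = 0`, `s_j ∈ ℤ[X]`, and integers `t1`, `t2` such
that the polynomials `∑ s_j(t1) T^(N-j)`, `∑ s_j(t2) T^(N-j)` are coprime over `ℚ` (so `∑ s_j(X) c^(N-j)` is not the zero polynomial
for any rational number `c`). -/

namespace Pool.Agent.H65.RG

open Polynomial Pool.Agent.H82.NS Pool.Agent.H12.OG Pool.Agent.H12.SF2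

/-- the primitive part -/
private theorem prim {R0 : ℚ[X][X]} (h0 : R0 ≠ 0) :
    ∃ (c : ℚ[X]) (R : ℚ[X][X]), c ≠ 0 ∧ R ≠ 0 ∧ R0 = C c * R ∧ ∀ q : ℚ[X], C q ∣ R → IsUnit q := by
  classical
  let _ : NormalizedGCDMonoid ℚ[X] := UniqueFactorizationMonoid.toNormalizedGCDMonoid ℚ[X]
  refine ⟨R0.content, R0.primPart, ?_, R0.primPart_ne_zero, R0.eq_C_content_mul_primPart, ?_⟩
  · rw [Ne, content_eq_zero_iff]
    exact h0
  · intro q hq
    exact R0.isPrimitive_primPart q hq

private theorem fin_dvd {R : ℚ[X][X]} (hp : ∀ q : ℚ[X], C q ∣ R → IsUnit q) {q : ℚ[X]} (hq : Prime q) :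
    {t : ℤ | q ∣ R.eval (C (t : ℚ))}.Finite := by
  classical
  have hpr : (Ideal.span {q}).IsPrime := (Ideal.span_singleton_prime hq.ne_zero).2 hq
  have hdom : IsDomain (ℚ[X] ⧸ Ideal.span {q}) := Ideal.Quotient.isDomain _
  obtain ⟨Rb, hRb⟩ : ∃ Rb, Rb = R.map (Ideal.Quotient.mk (Ideal.span {q})) := ⟨_, rfl⟩
  have hRb0 : Rb ≠ 0 := by
    intro h
    apply hq.not_isUnit
    apply hp q
    rw [C_dvd_iff_dvd_coeff]
    intro i
    have h1 := congrArg (fun p => coeff p i) h
    simp only [hRb, coeff_map, coeff_zero] at h1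
    rwa [Ideal.Quotient.eq_zero_iff_mem, Ideal.mem_span_singleton] at h1
  have hinj : Function.Injective (fun t : ℤ => Ideal.Quotient.mk (Ideal.span {q}) (C (t : ℚ))) := by
    intro t t' h
    by_contra hne
    have h1 : Ideal.Quotient.mk (Ideal.span {q}) (C (t : ℚ) - C (t' : ℚ)) = 0 := by
      rw [map_sub, sub_eq_zero]
      exact h
    rw [Ideal.Quotient.eq_zero_iff_mem, Ideal.mem_span_singleton, ← C_sub] at h1
    apply hq.not_isUnit
    refine isUnit_of_dvd_unit h1 ?_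
    rw [isUnit_C, isUnit_iff_ne_zero, sub_ne_zero]
    exact_mod_cast hne
  refine Set.Finite.subset (Set.Finite.preimage hinj.injOn (Rb.roots.toFinset.finite_toSet)) ?_
  intro t ht
  simp only [Set.mem_preimage, Finset.mem_coe, Multiset.mem_toFinset]
  rw [mem_roots hRb0, IsRoot, hRb, eval_map]
  have h1 : eval₂ (Ideal.Quotient.mk (Ideal.span {q})) (Ideal.Quotient.mk (Ideal.span {q}) (C (t : ℚ))) R =
      Ideal.Quotient.mk (Ideal.span {q}) (R.eval (C (t : ℚ))) := by
    rw [eval₂_hom]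
  rw [h1, Ideal.Quotient.eq_zero_iff_mem, Ideal.mem_span_singleton]
  exact ht

theorem bez_two {R : ℚ[X][X]} (hR : R ≠ 0) (hp : ∀ q : ℚ[X], C q ∣ R → IsUnit q) :
    ∃ t1 t2 : ℤ, IsCoprime (R.eval (C (t1 : ℚ))) (R.eval (C (t2 : ℚ))) := by
  classical
  have hinj : Function.Injective (fun t : ℤ => (C (t : ℚ) : ℚ[X])) := by
    intro t t' h
    have h1 := C_injective h
    exact_mod_cast h1
  have h1 : {t : ℤ | R.eval (C (t : ℚ)) = 0}.Finite := by
    refine Set.Finite.subset (Set.Finite.preimage hinj.injOn (R.roots.toFinset.finite_toSet)) ?_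
    intro t ht
    simp only [Set.mem_preimage, Finset.mem_coe, Multiset.mem_toFinset]
    rw [mem_roots hR]
    exact ht
  obtain ⟨t1, ht1⟩ := h1.exists_notMem
  have ht1' : R.eval (C (t1 : ℚ)) ≠ 0 := ht1
  obtain ⟨B, hB⟩ : ∃ B : Set ℤ, B = ⋃ q ∈ (UniqueFactorizationMonoid.factors (R.eval (C (t1 : ℚ)))).toFinset,
    {t : ℤ | q ∣ R.eval (C (t : ℚ))} := ⟨_, rfl⟩
  have hBf : B.Finite := by
    rw [hB]
    refine Set.Finite.biUnion (Finset.finite_toSet _) fun q hq => fin_dvd hp ?_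
    exact UniqueFactorizationMonoid.prime_of_factor q (Multiset.mem_toFinset.1 hq)
  obtain ⟨t2, ht2⟩ := hBf.exists_notMem
  refine ⟨t1, t2, isCoprime_of_irreducible_dvd (fun h => ht1' h.1) fun z hz hz1 hz2 => ht2 ?_⟩
  obtain ⟨q, hq, hqz⟩ := UniqueFactorizationMonoid.exists_mem_factors_of_dvd ht1' hz hz1
  rw [hB]
  simp only [Set.mem_iUnion]
  exact ⟨q, Multiset.mem_toFinset.2 hq, hqz.symm.dvd.trans hz2⟩

private theorem eval_swap (t : ℚ) (p : ℚ[X][X]) :
    p.eval (C t) = (Bivariate.swap p).map (evalRingHom t) := by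
  induction p using Polynomial.induction_on' with
  | add p q hp hq => rw [eval_add, map_add, Polynomial.map_add, hp, hq]
  | monomial n a =>
    induction a using Polynomial.induction_on' with
    | add p q hp hq => rw [map_add, eval_add, map_add, Polynomial.map_add, hp, hq]
    | monomial m r =>
      rw [Bivariate.swap_monomial_monomial, eval_monomial, map_monomial, coe_evalRingHom, eval_monomial,
        ← C_pow, monomial_mul_C]

private theorem aa_sum {L : Type} [Field L] [CharZero L] (x φ : L) (p : ℚ[X][X]) :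
    aevalAeval x φ p = ∑ i ∈ Finset.range (p.natDegree + 1), aeval x (p.coeff i) * φ ^ i := by
  conv_lhs => rw [p.as_sum_range_C_mul_X_pow]
  rw [map_sum]
  refine Finset.sum_congr rfl fun i _ => ?_
  rw [map_mul, aevalAeval_C, map_pow, aevalAeval_Y]

private theorem map_range (t : ℚ) (p : ℚ[X][X]) : p.map (evalRingHom t) =
    ∑ i ∈ Finset.range (p.natDegree + 1), C ((p.coeff i).eval t) * X ^ i := by
  conv_lhs => rw [p.as_sum_range_C_mul_X_pow]
  rw [Polynomial.map_sum]
  refine Finset.sum_congr rfl fun i _ => ?_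
  rw [Polynomial.map_mul, Polynomial.map_C, Polynomial.map_pow, Polynomial.map_X, coe_evalRingHom]

private theorem refl_sum {M : Type*} [AddCommMonoid M] (f : ℕ → M) (N : ℕ) :
    ∑ j ∈ Finset.range (N + 1), f (N - j) = ∑ i ∈ Finset.range (N + 1), f i := by
  have h := Finset.sum_range_reflect f (N + 1)
  rw [← h]
  exact Finset.sum_congr rfl fun j _ => by rw [Nat.add_sub_cancel]

theorem rg_bez {L : Type} [Field L] [CharZero L] {x φ : L} (hφ : IsInt ℚ x φ) (htr : Transcendental ℚ φ) :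
    ∃ (N : ℕ) (s : ℕ → ℤ[X]) (t1 t2 : ℤ) (U V : ℤ[X]) (N1 : ℤ), N1 ≠ 0 ∧ (∀ j, N < j → s j = 0) ∧
      ∑ j ∈ Finset.range (N + 1), aeval x (s j) * φ ^ (N - j) = 0 ∧
      U * ∑ j ∈ Finset.range (N + 1), C ((s j).eval t1) * X ^ (N - j) +
        V * ∑ j ∈ Finset.range (N + 1), C ((s j).eval t2) * X ^ (N - j) = C N1 := by
  classical
  obtain ⟨N0, s0, e, he, hs0, -, hsum⟩ := ig_int hφ
  obtain ⟨P0, hP0⟩ : ∃ P0 : ℚ[X][X], P0 = ∑ j ∈ Finset.range (N0 + 1),
    C ((s0 j).map (Int.castRingHom ℚ)) * X ^ (N0 - j) := ⟨_, rfl⟩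
  have hP0e : aevalAeval x φ P0 = 0 := by
    rw [hP0, map_sum, ← hsum]
    refine Finset.sum_congr rfl fun j _ => ?_
    rw [map_mul, aevalAeval_C, map_pow, aevalAeval_Y, ← algebraMap_int_eq, aeval_map_algebraMap]
  have hP00 : P0 ≠ 0 := by
    intro h
    have h1 := congrArg (fun p => coeff p N0) h
    simp only [hP0, finsetSum_coeff, coeff_C_mul, coeff_X_pow, coeff_zero] at h1
    rw [Finset.sum_eq_single 0] at h1
    · rw [Nat.sub_zero, if_pos rfl, mul_one, hs0, Polynomial.map_C, C_eq_zero, eq_intCast] at h1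
      exact he (by exact_mod_cast h1)
    · intro j hj hj0
      have := Finset.mem_range.1 hj
      rw [if_neg (by omega), mul_zero]
    · intro h2
      exact absurd (Finset.mem_range.2 (Nat.succ_pos _)) h2
  have hR00 : Bivariate.swap P0 ≠ 0 := by
    intro h
    apply hP00
    rw [← Bivariate.swap_swap_apply P0, h, map_zero]
  obtain ⟨c, R, hc, hR0, hcR, hprim⟩ := prim hR00
  have hRe : aevalAeval φ x R = 0 := by
    have h1 : aevalAeval φ x (Bivariate.swap P0) = 0 := by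
      rw [Bivariate.aevalAeval_swap, hP0e]
    rw [hcR, map_mul, aevalAeval_C] at h1
    rcases mul_eq_zero.1 h1 with h2 | h2
    · exact absurd h2 (fun h3 => hc (transcendental_iff.1 htr _ h3))
    · exact h2
  obtain ⟨t1, t2, hcop⟩ := bez_two hR0 hprim
  obtain ⟨P, hP⟩ : ∃ P, P = Bivariate.swap R := ⟨_, rfl⟩
  have hPe : aevalAeval x φ P = 0 := by
    rw [hP, Bivariate.aevalAeval_swap, hRe]
  obtain ⟨N, hN⟩ : ∃ N, N = P.natDegree := ⟨_, rfl⟩
  obtain ⟨m, q, hm, hq0, hq⟩ := clear (N := N) (fun j => P.coeff (N - j))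
  obtain ⟨a, b, hab⟩ := hcop
  obtain ⟨m', q', hm', -, hq'⟩ := clear (N := 1) (fun j => if j = 0 then a else b)
  have hU := hq' 0 (Nat.zero_le _)
  have hV := hq' 1 le_rfl
  rw [if_pos rfl] at hU
  rw [if_neg one_ne_zero] at hV
  have hS : ∀ t : ℤ, (∑ j ∈ Finset.range (N + 1), C ((q j).eval t) * X ^ (N - j) : ℤ[X]).map (Int.castRingHom ℚ) =
      C (m : ℚ) * R.eval (C (t : ℚ)) := by
    intro t
    rw [eval_swap, ← hP, map_range, ← hN, ← refl_sum (fun i => C ((P.coeff i).eval (t : ℚ)) * X ^ i) N,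
      Finset.mul_sum, Polynomial.map_sum]
    refine Finset.sum_congr rfl fun j hj => ?_
    have hj' : j ≤ N := by
      have := Finset.mem_range.1 hj
      omega
    rw [Polynomial.map_mul, Polynomial.map_C, Polynomial.map_pow, Polynomial.map_X, ← mul_assoc, ← C_mul]
    congr 2
    have h1 := congrArg (fun p => eval (t : ℚ) p) (hq j hj')
    simp only [eval_mul, eval_C] at h1
    rw [← h1]
    exact (eval_intCast_map (Int.castRingHom ℚ) (q j) t).symm
  refine ⟨N, q, t1, t2, q' 0, q' 1, m' * m, mul_ne_zero hm' hm, hq0, ?_, ?_⟩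
  · have h4 : ∀ j ∈ Finset.range (N + 1), aeval x (q j) * φ ^ (N - j) =
        (m : L) * (aeval x (P.coeff (N - j)) * φ ^ (N - j)) := by
      intro j hj
      have hj' : j ≤ N := by
        have := Finset.mem_range.1 hj
        omega
      have h5 : aeval x (q j) = aeval x ((q j).map (Int.castRingHom ℚ)) := by
        rw [← algebraMap_int_eq, aeval_map_algebraMap]
      rw [h5, hq j hj', map_mul, aeval_C, map_intCast]
      ring
    rw [Finset.sum_congr rfl h4, ← Finset.mul_sum, refl_sum (fun i => aeval x (P.coeff i) * φ ^ i) N]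
    rw [aa_sum, ← hN] at hPe
    rw [hPe, mul_zero]
  · apply Polynomial.map_injective (Int.castRingHom ℚ) Int.cast_injective
    rw [Polynomial.map_add, Polynomial.map_mul, Polynomial.map_mul, hS, hS, hU, hV, Polynomial.map_C]
    have h1 : C (m' : ℚ) * a * (C (m : ℚ) * R.eval (C (t1 : ℚ))) + C (m' : ℚ) * b * (C (m : ℚ) * R.eval (C (t2 : ℚ))) =
        C (m' : ℚ) * C (m : ℚ) * (a * R.eval (C (t1 : ℚ)) + b * R.eval (C (t2 : ℚ))) := by ring
    rw [h1, hab, mul_one, ← C_mul, eq_intCast]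
    push_cast
    rfl

end Pool.Agent.H65.RG
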