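import Pool.Agent.H82.NS.PlB
import Pool.Agent.H82.NS.Ri
import Pool.Agent.H12.OG.Def

/-! # [SF2 K4] THEOREM SF, phase 2 (the algorithm): Runge's certificate, the functions

`L` a function field over `ℚ` with at least two places at infinity (for `x`). There are functions `φ_i` (`i < k`), integral over `ℚ[x]`
and transcendental over `ℚ`, an integer `a ≥ 1`, functions `h_i = 1 / (1 + a φ_i^2)`, regular at all places at infinity, and
integers `c_i` such that `1 / ∑ c_i h_i` is regular at all places at infinity. -/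

namespace Pool.Agent.H65.RG

open Pool.Agent.H82.NS Pool.Agent.H12.OG

variable {L : Type} [Field L] [CharZero L]

private theorem val_int {x : L} {V : ValuationSubring L} (hV : Inf ℚ x V) {n : ℤ} (hn : n ≠ 0) :
    V.valuation (n : L) = 1 := by
  have hq : (n : ℚ) ≠ 0 := by exact_mod_cast hn
  have hL : (n : L) ≠ 0 := by exact_mod_cast hn
  have h1 : V.valuation (n : L) ≤ 1 := by
    rw [V.valuation_le_one_iff]
    have := hV.base (n : ℚ)
    rwa [map_intCast] at this
  have h2 : V.valuation (n : L)⁻¹ ≤ 1 := by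
    rw [V.valuation_le_one_iff]
    have := hV.base ((n : ℚ)⁻¹)
    rwa [map_inv₀, map_intCast] at this
  rw [map_inv₀] at h2
  refine le_antisymm h1 ?_
  have h3 : V.valuation (n : L) ≠ 0 := (Valuation.ne_zero_iff _).2 hL
  by_contra h4
  have h5 : V.valuation (n : L) < 1 := not_le.1 h4
  have h6 : 1 < (V.valuation (n : L))⁻¹ := (one_lt_inv₀ (zero_lt_iff.2 h3)).2 h5
  exact absurd h2 (not_le.2 h6)

/-- for every place at most one integer `c` is bad for `u + c w`, `w` a unit -/
private theorem one_bad {x : L} {V : ValuationSubring L} (hV : Inf ℚ x V) {u w : L}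
    (hw : V.valuation w = 1) {c d : ℤ} (hc : V.valuation (u + c * w) < 1) (hd : V.valuation (u + d * w) < 1) :
    c = d := by
  by_contra hcd
  have h1 : V.valuation ((c - d : ℤ) : L) = 1 := val_int hV (sub_ne_zero.2 hcd)
  have h2 : ((c - d : ℤ) : L) * w = (u + c * w) - (u + d * w) := by
    push_cast
    ring
  have h3 : V.valuation (((c - d : ℤ) : L) * w) = 1 := by rw [map_mul, h1, hw, one_mul]
  rw [h2] at h3
  have h4 := Valuation.map_sub V.valuation (u + c * w) (u + d * w)
  rw [h3] at h4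
  exact absurd (h4.trans_lt (max_lt hc hd)) (lt_irrefl _)

/-- a good integer for finitely many places -/
private theorem good_int {x : L} {P : Set (ValuationSubring L)} (hP : P.Finite) (hV : ∀ V ∈ P, Inf ℚ x V)
    {ι : Type} [Finite ι] (u w : ι → L) :
    ∃ c : ℤ, 1 ≤ c ∧ ∀ V ∈ P, ∀ i, V.valuation (w i) = 1 → ¬ V.valuation (u i + c * w i) < 1 := by
  have := hP.to_subtype
  obtain ⟨B, hB⟩ : ∃ B : Set ℤ, B = ⋃ Vi : P × ι, {c : ℤ | Vi.1.1.valuation (w Vi.2) = 1 ∧
    Vi.1.1.valuation (u Vi.2 + c * w Vi.2) < 1} := ⟨_, rfl⟩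
  have hBf : B.Finite := by
    rw [hB]
    refine Set.finite_iUnion fun Vi => Set.Subsingleton.finite ?_
    rintro c ⟨h1, h2⟩ d ⟨-, h3⟩
    exact one_bad (hV _ Vi.1.2) h1 h2 h3
  have hinf : (Set.Ici (1 : ℤ)).Infinite := Set.Ici_infinite 1
  obtain ⟨c, hc1, hc2⟩ := (hinf.sdiff hBf).nonempty
  refine ⟨c, hc1, fun V hVP i h1 h2 => hc2 ?_⟩
  rw [hB, Set.mem_iUnion]
  exact ⟨(⟨V, hVP⟩, i), h1, h2⟩

/-- an integer combination which is a unit at all places -/
private theorem comb {x : L} {P : Set (ValuationSubring L)} (hP : P.Finite) (hV : ∀ V ∈ P, Inf ℚ x V)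
    {ι : Type} [Finite ι] [DecidableEq ι] (h : ι → L) (hh : ∀ V ∈ P, ∀ i, V.valuation (h i) ≤ 1) (s : Finset ι) :
    ∃ c : ι → ℤ, ∀ V ∈ P, (∃ i ∈ s, V.valuation (h i) = 1) → V.valuation (∑ i ∈ s, (c i : L) * h i) = 1 := by
  induction s using Finset.induction_on with
  | empty => exact ⟨fun _ => 0, fun V _ ⟨i, hi, _⟩ => absurd hi (Finset.notMem_empty i)⟩
  | insert j s hj ih =>
    obtain ⟨c, hc⟩ := ih
    obtain ⟨d, hd1, hd⟩ := good_int hP hV (ι := Unit) (fun _ => ∑ i ∈ s, (c i : L) * h i) (fun _ => h j)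
    refine ⟨Function.update c j d, fun V hVP hex => ?_⟩
    have hle : ∀ (t : Finset ι) (c' : ι → ℤ), V.valuation (∑ i ∈ t, (c' i : L) * h i) ≤ 1 := by
      intro t c'
      refine Valuation.map_sum_le _ fun i _ => ?_
      rw [map_mul]
      refine mul_le_one' ?_ (hh V hVP i)
      rw [V.valuation_le_one_iff]
      have := (hV V hVP).base (c' i : ℚ)
      rwa [map_intCast] at this
    refine le_antisymm (hle _ _) ?_
    have hs : ∑ i ∈ insert j s, ((Function.update c j d i : ℤ) : L) * h i =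
        ∑ i ∈ s, (c i : L) * h i + d * h j := by
      rw [Finset.sum_insert hj, Function.update_self, add_comm]
      congr 1
      refine Finset.sum_congr rfl fun i hi => ?_
      have hij : i ≠ j := by
        rintro rfl
        exact hj hi
      rw [Function.update_of_ne hij]
    rw [hs]
    by_cases hw : V.valuation (h j) = 1
    · exact not_lt.1 (hd V hVP () hw)
    · have hw' : V.valuation (h j) < 1 := lt_of_le_of_ne (hh V hVP j) hw
      obtain ⟨i, hi, hi1⟩ := hex
      have his : i ∈ s := by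
        rcases Finset.mem_insert.1 hi with rfl | h1
        · exact absurd hi1 hw
        · exact h1
      have h1 := hc V hVP ⟨i, his, hi1⟩
      have h2 : V.valuation ((d : L) * h j) < 1 := by
        rw [map_mul]
        refine mul_lt_one_of_nonneg_of_lt_one_right ?_ zero_le hw'
        rw [V.valuation_le_one_iff]
        have := (hV V hVP).base (d : ℚ)
        rwa [map_intCast] at this
      rw [Valuation.map_add_eq_of_lt_left V.valuation (by rw [h1]; exact h2), h1]

theorem rg_fun {x : L} (ff : FF ℚ x) {V₀ V₁ : ValuationSubring L} (h0 : Inf ℚ x V₀) (h1 : Inf ℚ x V₁)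
    (hne : V₀ ≠ V₁) :
    ∃ (k : ℕ) (φ h : Fin k → L) (a : ℕ) (c : Fin k → ℤ) (v : L), 1 ≤ a ∧ (∀ i, IsInt ℚ x (φ i)) ∧
      (∀ i, Transcendental ℚ (φ i)) ∧ (∀ i, (1 + a * φ i ^ 2) * h i = 1) ∧ v * ∑ i, (c i : L) * h i = 1 ∧
        ∀ V, Inf ℚ x V → v ∈ V ∧ ∀ i, h i ∈ V := by
  classical
  obtain ⟨P, hP⟩ : ∃ P : Set (ValuationSubring L), P = {V | Inf ℚ x V} := ⟨_, rfl⟩
  have hPf : P.Finite := hP ▸ places_finite ff
  have hPi : ∀ V ∈ P, Inf ℚ x V := fun V hV => by rwa [hP] at hV
  have hPm : ∀ V, Inf ℚ x V → V ∈ P := fun V hV => by rwa [hP]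
  have hex : ∀ V : P, ∃ g ∈ V.1, IsInt ℚ x g ∧ Transcendental ℚ g := by
    intro V
    by_cases hV : V.1 = V₀
    · exact ri x ff V.1 V₁ (hPi _ V.2) h1 (by rw [hV]; exact hne)
    · exact ri x ff V.1 V₀ (hPi _ V.2) h0 hV
  choose g hg1 hg2 hg3 using hex
  have := hPf.to_subtype
  obtain ⟨k, ⟨e⟩⟩ := Finite.exists_equiv_fin P
  obtain ⟨φ, hφ⟩ : ∃ φ : Fin k → L, ∀ i, φ i = g (e.symm i) := ⟨_, fun _ => rfl⟩
  obtain ⟨a, ha1, ha⟩ := good_int hPf hPi (ι := Fin k) (fun _ => 1) (fun i => φ i ^ 2)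
  obtain ⟨n, rfl⟩ : ∃ n : ℕ, a = n := ⟨a.toNat, (Int.toNat_of_nonneg (by omega)).symm⟩
  have hn1 : 1 ≤ n := by exact_mod_cast ha1
  have htr : ∀ i, Transcendental ℚ (φ i) := fun i => by rw [hφ]; exact hg3 _
  have hne0 : ∀ i, (1 + (n : L) * φ i ^ 2) ≠ 0 := by
    intro i hi
    refine htr i ⟨1 + Polynomial.C (n : ℚ) * Polynomial.X ^ 2, ?_, ?_⟩
    · intro h
      have h3 := congrArg (fun p => Polynomial.coeff p 0) h
      simp at h3
    · simp only [map_add, map_one, map_mul, map_pow, Polynomial.aeval_X, map_natCast]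
      exact hi
  obtain ⟨h, hh⟩ : ∃ h : Fin k → L, ∀ i, h i = (1 + (n : L) * φ i ^ 2)⁻¹ := ⟨_, fun _ => rfl⟩
  -- values of the denominators
  have hden : ∀ V ∈ P, ∀ i, 1 ≤ V.valuation (1 + (n : L) * φ i ^ 2) ∧
      (φ i ∈ V → V.valuation (1 + (n : L) * φ i ^ 2) = 1) := by
    intro V hV i
    have hnV : V.valuation (n : L) = 1 := by
      have := val_int (hPi V hV) (n := (n : ℤ)) (by omega)
      rwa [Int.cast_natCast] at this
    by_cases hm : φ i ∈ V
    · have h3 : V.valuation (1 + (n : L) * φ i ^ 2) = 1 := by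
        have hle : V.valuation (φ i) ≤ 1 := (V.valuation_le_one_iff _).2 hm
        rcases eq_or_lt_of_le hle with h4 | h4
        · refine le_antisymm ?_ ?_
          · refine (Valuation.map_add _ _ _).trans (max_le (by rw [map_one]) ?_)
            rw [map_mul, map_pow, hnV, h4, one_pow, one_mul]
          · have h5 := ha V hV i (by rw [map_pow, h4, one_pow])
            have h6 : (1 : L) + ((n : ℤ) : L) * φ i ^ 2 = 1 + (n : L) * φ i ^ 2 := by
              rw [Int.cast_natCast]
            rw [h6] at h5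
            exact not_lt.1 h5
        · have h5 : V.valuation ((n : L) * φ i ^ 2) < 1 := by
            rw [map_mul, map_pow, hnV, one_mul]
            exact pow_lt_one₀ zero_le h4 two_ne_zero
          rw [Valuation.map_add_eq_of_lt_left V.valuation (by rw [map_one]; exact h5), map_one]
      exact ⟨h3.ge, fun _ => h3⟩
    · have h4 : 1 < V.valuation (φ i) := by
        rw [← V.valuation_le_one_iff, not_le] at hm
        exact hm
      have h5 : 1 < V.valuation ((n : L) * φ i ^ 2) := by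
        rw [map_mul, map_pow, hnV, one_mul]
        exact one_lt_pow₀ h4 two_ne_zero
      refine ⟨?_, fun h6 => absurd h6 hm⟩
      rw [Valuation.map_add_eq_of_lt_right V.valuation (by rw [map_one]; exact h5)]
      exact h5.le
  have hhV : ∀ V ∈ P, ∀ i, V.valuation (h i) ≤ 1 := by
    intro V hV i
    rw [hh, map_inv₀]
    exact inv_le_one_of_one_le₀ (hden V hV i).1
  obtain ⟨c, hc⟩ := comb hPf hPi h hhV Finset.univ
  have hunit : ∀ V ∈ P, V.valuation (∑ i, (c i : L) * h i) = 1 := by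
    intro V hV
    refine hc V hV ⟨e ⟨V, hV⟩, Finset.mem_univ _, ?_⟩
    have h3 : φ (e ⟨V, hV⟩) ∈ V := by
      rw [hφ, Equiv.symm_apply_apply]
      exact hg1 ⟨V, hV⟩
    rw [hh, map_inv₀, (hden V hV _).2 h3, inv_one]
  have hsum : (∑ i, (c i : L) * h i) ≠ 0 := by
    intro h3
    have h4 := hunit V₀ (hPm _ h0)
    rw [h3, map_zero] at h4
    exact zero_ne_one h4
  refine ⟨k, φ, h, n, c, (∑ i, (c i : L) * h i)⁻¹, hn1, fun i => by rw [hφ]; exact hg2 _, htr,
    fun i => by rw [hh]; exact mul_inv_cancel₀ (hne0 i), inv_mul_cancel₀ hsum, fun V hV => ⟨?_, fun i => ?_⟩⟩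
  · rw [← V.valuation_le_one_iff, map_inv₀, hunit V (hPm V hV), inv_one]
  · rw [← V.valuation_le_one_iff]
    exact hhV V (hPm V hV) i

end Pool.Agent.H65.RG
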