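import Pool.Agent.H65.RG.Bda
import Pool.Agent.H65.RG.Fld
import Pool.Agent.H65.RG.Bez
import Pool.Agent.H65.RG.Def
import Pool.Agent.H46.SF2.Pas
import Pool.Agent.H12.SF2.Ce0
import Pool.Agent.H12.SF2.Pla

/-! # [SF2 K4] THE ALGORITHM: Runge's certificate exists if there are two places at infinity over `ℚ`

`cer2_ex`, `cer2_of`. -/

namespace Pool.Agent.H65.RG

open Pool.Agent.H98.AL Pool.Agent.H85.SA Pool.Agent.H82.NS Pool.Agent.H12.OG Pool.Agent.H46.SF2 Pool.Agent.H12.SF2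
  Filter

variable {G : P2} {L : Type} [Field L] [CharZero L] {t y : L}

/-- the homogeneous equation -/
private theorem hom_eq' (h : Fld G t y) {z : L} {D' A : P2} (hA : vl D' t y * z = vl A t y) {N : ℕ}
    {s : ℕ → Polynomial ℤ} (hs : ∑ j ∈ Finset.range (N + 1), Polynomial.aeval t (s j) * z ^ (N - j) = 0) :
    ∃ (m : ℤ) (Q : P2), m ≠ 0 ∧ ∑ j ∈ Finset.range (N + 1), em (Polynomial.C m * s j) * A ^ (N - j) * D' ^ j = G * Q := by
  have hsum : ∀ (S : Finset ℕ) (f : ℕ → P2), vl (∑ j ∈ S, f j) t y = ∑ j ∈ S, vl (f j) t y :=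
    fun S f => map_sum (MvPolynomial.eval₂Hom (Int.castRingHom L) ![t, y]) f S
  have h1 : vl (∑ j ∈ Finset.range (N + 1), em (s j) * A ^ (N - j) * D' ^ j) t y = 0 := by
    rw [hsum]
    have h2 : ∀ j ∈ Finset.range (N + 1), vl (em (s j) * A ^ (N - j) * D' ^ j) t y =
        vl D' t y ^ N * (Polynomial.aeval t (s j) * z ^ (N - j)) := by
      intro j hj
      have hj' : j ≤ N := by
        have := Finset.mem_range.1 hj
        omega
      rw [vl_mul, vl_mul, vl_pow, vl_pow, Pool.Agent.H46.SF2.vl_em, ← hA]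
      obtain ⟨i, rfl⟩ := Nat.exists_eq_add_of_le hj'
      rw [Nat.add_sub_cancel_left, pow_add, mul_pow]
      ring
    rw [Finset.sum_congr rfl h2, ← Finset.mul_sum, hs, mul_zero]
  obtain ⟨m, Q, hm, hQ⟩ := id_ex h h1
  refine ⟨m, Q, hm, ?_⟩
  rw [← hQ, Finset.mul_sum]
  refine Finset.sum_congr rfl fun j _ => ?_
  rw [em_mul, em_C]
  ring

/-- the relation -/
theorem rl_of (h : Fld G t y) {z : L} {D' A : P2} (hA : vl D' t y * z = vl A t y) (hi : IsInt ℚ t z)
    (htr : Transcendental ℚ z) : ∀ᶠ Z : ℕ in atTop, Rl G Z D' A := by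
  obtain ⟨N, s, t1, t2, U, V, N1, hN1, -, hs, hb⟩ := rg_bez hi htr
  obtain ⟨m, Q, hm, hQ⟩ := hom_eq' h hA hs
  have hall : ∀ᶠ Z : ℕ in atTop, ∀ j ∈ Finset.range (N + 1), Sz Z (Polynomial.C m * s j) :=
    (Filter.eventually_all_finset _).2 fun j _ => sz_ev _
  have hspl : ∀ τ : ℤ, spl N (fun j => Polynomial.C m * s j) τ =
      Polynomial.C m * ∑ j ∈ Finset.range (N + 1), Polynomial.C ((s j).eval τ) * Polynomial.X ^ (N - j) := by
    intro τ
    unfold spl
    rw [Finset.mul_sum]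
    refine Finset.sum_congr rfl fun j _ => ?_
    rw [Polynomial.eval_mul, Polynomial.eval_C, Polynomial.C_mul, mul_assoc]
  filter_upwards [eventually_ge_atTop N, hall] with Z hZ hSz
  refine ⟨N, fun j => Polynomial.C m * s j, Q, t1, t2, U, V, m * N1, hZ, mul_ne_zero hm hN1,
    fun j hj => hSz j (Finset.mem_range.2 (by omega)), hQ, ?_⟩
  rw [hspl, hspl, Polynomial.C_mul, ← hb]
  ring

theorem cer2_ex {F : P2} {c : ℕ} (hf : Fld (shf c F) t y) (ff : FF ℚ t)
    (lc : MvPolynomial.coeff (Finsupp.single 1 (shf c F).totalDegree) (shf c F) ≠ 0) {V0 V1 : ValuationSubring L}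
    (h0 : Inf ℚ t V0) (h1 : Inf ℚ t V1) (hne : V0 ≠ V1) : ∃ (Z : ℕ) (d : Dr), Cer2 F Z d := by
  classical
  obtain ⟨k, φ, h, a, cc, v, ha, hφi, hφt, hh, hv, hV⟩ := rg_fun ff h0 h1 hne
  obtain ⟨D, A, hD, hA⟩ := den_ex hf (ι := Fin k ⊕ Fin k ⊕ Unit) (Sum.elim φ (Sum.elim h (fun _ => v)))
  obtain ⟨d, hd⟩ : ∃ d : Dr, d = ⟨c, k, a, D, fun i => if hi : i < k then A (Sum.inl ⟨i, hi⟩) else 0,
    fun i => if hi : i < k then A (Sum.inr (Sum.inl ⟨i, hi⟩)) else 0, fun i => if hi : i < k then cc ⟨i, hi⟩ else 0,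
    A (Sum.inr (Sum.inr ()))⟩ := ⟨_, rfl⟩
  have hdc : d.c = c := by rw [hd]
  have hdk : d.k = k := by rw [hd]
  have hda : d.a = a := by rw [hd]
  have hdD : d.D = D := by rw [hd]
  have hphi : ∀ i (hi : i < k), d.phi i = A (Sum.inl ⟨i, hi⟩) := fun i hi => by rw [hd]; exact dif_pos hi
  have hhh : ∀ i (hi : i < k), d.h i = A (Sum.inr (Sum.inl ⟨i, hi⟩)) := fun i hi => by rw [hd]; exact dif_pos hi
  have hcc : ∀ i (hi : i < k), d.cc i = cc ⟨i, hi⟩ := fun i hi => by rw [hd]; exact dif_pos hi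
  have hdv : d.v = A (Sum.inr (Sum.inr ())) := by rw [hd]
  have hem : vl (em D) t y = Polynomial.aeval t D := Pool.Agent.H46.SF2.vl_em D t y
  have hδ : Polynomial.aeval t D ≠ 0 := by
    rw [← hem]
    exact em_ne hD ff.tr
  have vphi : ∀ i (hi : i < k), vl (em D) t y * φ ⟨i, hi⟩ = vl (d.phi i) t y := fun i hi => by
    rw [hem, hphi i hi]
    exact hA (Sum.inl ⟨i, hi⟩)
  have vh : ∀ i (hi : i < k), vl (em D) t y * h ⟨i, hi⟩ = vl (d.h i) t y := fun i hi => by
    rw [hem, hhh i hi]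
    exact hA (Sum.inr (Sum.inl ⟨i, hi⟩))
  have vv : vl (em D) t y * v = vl d.v t y := by
    rw [hem, hdv]
    exact hA (Sum.inr (Sum.inr ()))
  have hsum : ∀ (S : Finset ℕ) (f : ℕ → P2), vl (∑ j ∈ S, f j) t y = ∑ j ∈ S, vl (f j) t y :=
    fun S f => map_sum (MvPolynomial.eval₂Hom (Int.castRingHom L) ![t, y]) f S
  -- the identities
  have eqh : ∀ i < k, Eqv (shf c F) ((em D ^ 2 + MvPolynomial.C (a : ℤ) * d.phi i ^ 2) * d.h i) (em D ^ 3) := by
    intro i hi
    refine eqv_of hf ?_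
    rw [vl_mul, vl_add, vl_mul, vl_pow, vl_pow, vl_pow, vl_C, ← vphi i hi, ← vh i hi]
    have e1 := hh ⟨i, hi⟩
    push_cast
    linear_combination (vl (em D) t y) ^ 3 * e1
  have eqs : Eqv (shf c F) (d.v * ∑ i ∈ Finset.range k, MvPolynomial.C (d.cc i) * d.h i) (em D ^ 2) := by
    refine eqv_of hf ?_
    rw [vl_mul, hsum, vl_pow, ← vv]
    have e2 : ∑ i ∈ Finset.range k, vl (MvPolynomial.C (d.cc i) * d.h i) t y =
        vl (em D) t y * ∑ i : Fin k, (cc i : L) * h i := by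
      rw [Finset.mul_sum, Finset.sum_range]
      refine Finset.sum_congr rfl fun i _ => ?_
      rw [vl_mul, vl_C, ← vh i.1 i.2, hcc i.1 i.2]
      ring
    rw [e2]
    linear_combination (vl (em D) t y) ^ 2 * hv
  -- sizes
  obtain ⟨ZF, hZF⟩ := cf_bd (shf c F)
  have b1 : ∀ᶠ Z : ℕ in atTop, ∀ i ∈ Finset.range k, Bd (shf c F) Z (em D) (d.h i) ∧ Ig (shf c F) Z (em D) (d.phi i) ∧
      Rl (shf c F) Z (em D) (d.phi i) := by
    refine (Filter.eventually_all_finset _).2 fun i hi => ?_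
    have hi' := Finset.mem_range.1 hi
    exact (bd_of hf (vh i hi') (bda_int ff fun V hV' => (hV V hV').2 ⟨i, hi'⟩)).and
      ((ig_of hf (vphi i hi') (ig_int (hφi ⟨i, hi'⟩))).and (rl_of hf (vphi i hi') (hφi _) (hφt _)))
  have b2 : ∀ᶠ Z : ℕ in atTop, Bd (shf c F) Z (em D) d.v := bd_of hf vv (bda_int ff fun V hV' => (hV V hV').1)
  obtain ⟨Z, ⟨hZ1, hZ2⟩, hZ3, hZ4⟩ := ((b1.and b2).and ((sz_ev D).and
    (eventually_ge_atTop (2 + c + k + ZF + (shf c F).totalDegree +
      ∑ i ∈ Finset.range k, (d.cc i).natAbs)))).exists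
  refine ⟨Z, d, ?_⟩
  have hc' : shf d.c F = shf c F := by rw [hdc]
  exact
    { Z2 := by omega
      cZ := by rw [hdc]; omega
      lc := by rw [hc']; exact lc
      dZ := by rw [hc']; omega
      FZ := by
        intro u
        rw [hc']
        exact (hZF u).trans (by exact_mod_cast (by omega : ZF ≤ Z))
      kZ := by rw [hdk]; omega
      a1 := by rw [hda]; exact ha
      D0 := by rw [hdD]; exact hD
      DZ := by rw [hdD]; exact hZ3
      ccZ := by
        intro i hi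
        rw [hdk] at hi
        have e1 : (d.cc i).natAbs ≤ ∑ i ∈ Finset.range k, (d.cc i).natAbs :=
          Finset.single_le_sum (f := fun i => (d.cc i).natAbs) (fun _ _ => Nat.zero_le _) (Finset.mem_range.2 hi)
        rw [Int.abs_eq_natAbs]
        exact_mod_cast (by omega : (d.cc i).natAbs ≤ Z)
      eqh := by
        intro i hi
        rw [hdk] at hi
        rw [hc', hdD, hda]
        exact eqh i hi
      bh := by
        intro i hi
        rw [hdk] at hi
        rw [hc', hdD]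
        exact (hZ1 i (Finset.mem_range.2 hi)).1
      eqs := by
        rw [hc', hdD, hdk]
        exact eqs
      bv := by
        rw [hc', hdD]
        exact hZ2
      ig := by
        intro i hi
        rw [hdk] at hi
        rw [hc', hdD]
        exact (hZ1 i (Finset.mem_range.2 hi)).2.1
      rl := by
        intro i hi
        rw [hdk] at hi
        rw [hc', hdD]
        exact (hZ1 i (Finset.mem_range.2 hi)).2.2 }

end Pool.Agent.H65.RG
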