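import Mathlib

/-!
# Degree filtration on functions of `(ZMod r)^E`, over a field with a primitive character
-/

set_option autoImplicit false
set_option linter.unusedSectionVars false

namespace Pool.Agent.H65.RG

open Finset

section Deg

variable {r : ℕ} [NeZero r] {E : Type} [Fintype E] [DecidableEq E] {F : Type} [Field F]

/-- the character of `s` -/
def chi (ψ : AddChar (ZMod r) F) (s y : E → ZMod r) : F := ψ (∑ e, s e * y e)

/-- the support -/
def supp (s : E → ZMod r) : Finset E := univ.filter fun e => s e ≠ 0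

/-- functions of degree at most `D` -/
def Dg (E : Type) [Fintype E] [DecidableEq E] (ψ : AddChar (ZMod r) F) (D : ℕ) : Submodule F ((E → ZMod r) → F) :=
  Submodule.span F {f | ∃ s : E → ZMod r, (supp s).card ≤ D ∧ f = chi ψ s}

variable {ψ : AddChar (ZMod r) F}

theorem mem_supp {s : E → ZMod r} {e : E} : e ∈ supp s ↔ s e ≠ 0 := by
  unfold supp
  simp

theorem chi_mem {s : E → ZMod r} {D : ℕ} (h : (supp s).card ≤ D) : chi ψ s ∈ Dg E ψ D :=
  Submodule.subset_span ⟨s, h, rfl⟩

theorem chi_zero : chi ψ (0 : E → ZMod r) = 1 := by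
  funext y
  simp [chi]

theorem chi_mul (s t : E → ZMod r) : chi ψ s * chi ψ t = chi ψ (s + t) := by
  funext y
  simp only [chi, Pi.mul_apply, Pi.add_apply]
  rw [← AddChar.map_add_eq_mul, ← sum_add_distrib]
  congr 1
  exact sum_congr rfl fun e _ => by ring

theorem supp_zero : supp (0 : E → ZMod r) = ∅ := by
  ext e
  simp [mem_supp]

theorem supp_neg (s : E → ZMod r) : supp (-s) = supp s := by
  ext e
  simp [mem_supp]

theorem supp_add (s t : E → ZMod r) : (supp (s + t)).card ≤ (supp s).card + (supp t).card := by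
  refine (card_le_card ?_).trans (card_union_le _ _)
  intro e he
  rw [mem_union, mem_supp, mem_supp]
  rw [mem_supp] at he
  by_contra h
  push Not at h
  exact he (by rw [Pi.add_apply, h.1, h.2, add_zero])

theorem dg_mono {a b : ℕ} (h : a ≤ b) : Dg E ψ a ≤ Dg E ψ b := by
  apply Submodule.span_mono
  rintro f ⟨s, hs, rfl⟩
  exact ⟨s, hs.trans h, rfl⟩

theorem one_mem (D : ℕ) : (1 : (E → ZMod r) → F) ∈ Dg E ψ D := by
  rw [← chi_zero (E := E) (ψ := ψ)]
  exact chi_mem (by rw [supp_zero]; simp)

theorem dg_mul {a b : ℕ} {f g : (E → ZMod r) → F} (hf : f ∈ Dg E ψ a) (hg : g ∈ Dg E ψ b) :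
    f * g ∈ Dg E ψ (a + b) := by
  have h1 : f * g ∈ Dg E ψ a * Dg E ψ b := Submodule.mul_mem_mul hf hg
  unfold Dg at h1
  rw [Submodule.span_mul_span] at h1
  revert h1
  apply SetLike.le_def.1
  rw [Submodule.span_le]
  rintro _ ⟨_, ⟨s, hs, rfl⟩, _, ⟨t, ht, rfl⟩, rfl⟩
  show chi ψ s * chi ψ t ∈ _
  rw [chi_mul]
  exact chi_mem ((supp_add s t).trans (Nat.add_le_add hs ht))

theorem dg_const (c : F) (D : ℕ) : (fun _ => c : (E → ZMod r) → F) ∈ Dg E ψ D := by
  have h : (fun _ => c : (E → ZMod r) → F) = c • (1 : (E → ZMod r) → F) := by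
    funext y
    simp
  rw [h]
  exact Submodule.smul_mem _ _ (one_mem D)

theorem supp_single (e : E) (x : ZMod r) : (supp (Pi.single e x : E → ZMod r)).card ≤ 1 := by
  have h : supp (Pi.single e x : E → ZMod r) ⊆ {e} := by
    intro i hi
    rw [mem_supp] at hi
    rw [mem_singleton]
    by_contra h
    exact hi (Pi.single_eq_of_ne (M := fun _ => ZMod r) h x)
  simpa using card_le_card h

theorem chi_single (e : E) (x : ZMod r) (y : E → ZMod r) : chi ψ (Pi.single e x) y = ψ (x * y e) := by
  unfold chi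
  congr 1
  rw [sum_eq_single e]
  · rw [Pi.single_eq_same]
  · intro i _ hi
    rw [Pi.single_eq_of_ne hi, zero_mul]
  · intro h
    exact absurd (mem_univ e) h

/-- one coordinate -/
theorem dg_coord (hψ : ψ.IsPrimitive) (hr : (r : F) ≠ 0) (e : E) (b : ZMod r) :
    (fun y : E → ZMod r => if y e = b then (1 : F) else 0) ∈ Dg E ψ 1 := by
  have h : (fun y : E → ZMod r => if y e = b then (1 : F) else 0) =
      ∑ x : ZMod r, ((r : F)⁻¹ * ψ (-(x * b))) • chi ψ (Pi.single e x) := by
    funext y
    rw [Finset.sum_apply]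
    simp only [Pi.smul_apply, smul_eq_mul, chi_single]
    have h1 : ∀ x : ZMod r, (r : F)⁻¹ * ψ (-(x * b)) * ψ (x * y e) = (r : F)⁻¹ * ψ (x * (y e - b)) := by
      intro x
      rw [mul_assoc, ← AddChar.map_add_eq_mul]
      congr 2
      ring
    simp only [h1]
    rw [← mul_sum, AddChar.sum_mulShift _ hψ]
    by_cases h2 : y e = b
    · rw [if_pos h2, if_pos (sub_eq_zero.2 h2), ZMod.card, inv_mul_cancel₀ hr]
    · rw [if_neg h2, if_neg fun h3 => h2 (sub_eq_zero.1 h3), Nat.cast_zero, mul_zero]
  rw [h]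
  exact Submodule.sum_mem _ fun x _ => Submodule.smul_mem _ _ (chi_mem (supp_single e x))

/-- a function of the coordinates in `S` -/
theorem dg_junta (hψ : ψ.IsPrimitive) (hr : (r : F) ≠ 0) (S : Finset E) (f : (E → ZMod r) → F)
    (hf : ∀ y y', (∀ e ∈ S, y e = y' e) → f y = f y') : f ∈ Dg E ψ S.card := by
  induction S using Finset.induction_on generalizing f with
  | empty =>
    have : f = fun _ => f (fun _ => 0) := by
      funext y
      exact hf _ _ (by simp)
    rw [this]
    exact dg_const _ _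
  | insert e S he ih =>
    have hd : ∀ b : ZMod r, (fun y => f (Function.update y e b)) ∈ Dg E ψ S.card := by
      intro b
      apply ih
      intro y y' h
      apply hf
      intro i hi
      rcases mem_insert.1 hi with rfl | hi
      · simp
      · have : i ≠ e := fun h => he (h ▸ hi)
        simp [Function.update_of_ne this, h i hi]
    have h1 : f = ∑ b : ZMod r, (fun y : E → ZMod r => if y e = b then (1 : F) else 0) *
        (fun y => f (Function.update y e b)) := by
      funext y
      rw [Finset.sum_apply]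
      simp only [Pi.mul_apply]
      rw [sum_eq_single (y e)]
      · rw [if_pos rfl, one_mul, Function.update_eq_self]
      · intro b _ hb
        rw [if_neg (Ne.symm hb), zero_mul]
      · intro h
        exact absurd (mem_univ _) h
    rw [h1, card_insert_of_notMem he, add_comm]
    exact Submodule.sum_mem _ fun b _ => dg_mul (dg_coord hψ hr e b) (hd b)

/-- Fourier coefficient (times a constant) -/
noncomputable def cf (ψ : AddChar (ZMod r) F) (s : E → ZMod r) : ((E → ZMod r) → F) →ₗ[F] F :=
  ∑ y : E → ZMod r, chi ψ (-s) y • LinearMap.proj y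

theorem psi_sum {ι : Type} (S : Finset ι) (g : ι → ZMod r) : ψ (∑ i ∈ S, g i) = ∏ i ∈ S, ψ (g i) := by
  classical
  induction S using Finset.induction_on with
  | empty => simp
  | insert i S hi ih => rw [sum_insert hi, prod_insert hi, AddChar.map_add_eq_mul, ih]

theorem cf_chi (hψ : ψ.IsPrimitive) (s t : E → ZMod r) :
    cf ψ s (chi ψ t) = if s = t then (r : F) ^ Fintype.card E else 0 := by
  have h1 : cf ψ s (chi ψ t) = ∑ y : E → ZMod r, chi ψ (t - s) y := by
    unfold cf
    rw [LinearMap.sum_apply]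
    apply sum_congr rfl
    intro y _
    rw [LinearMap.smul_apply, LinearMap.proj_apply, smul_eq_mul, ← Pi.mul_apply, chi_mul, neg_add_eq_sub]
  have h2 : ∑ y : E → ZMod r, chi ψ (t - s) y = ∏ e : E, ∑ x : ZMod r, ψ (x * (t - s) e) := by
    rw [prod_univ_sum, Fintype.piFinset_univ]
    apply sum_congr rfl
    intro y _
    unfold chi
    rw [psi_sum]
    exact prod_congr rfl fun e _ => by rw [mul_comm]
  rw [h1, h2]
  by_cases h : s = t
  · rw [if_pos h, h, sub_self]
    have : ∀ e : E, ∑ x : ZMod r, ψ (x * (0 : E → ZMod r) e) = (r : F) := by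
      intro e
      rw [AddChar.sum_mulShift _ hψ, if_pos (by rfl), ZMod.card]
    rw [prod_congr rfl fun e _ => this e, prod_const, card_univ]
  · rw [if_neg h]
    obtain ⟨e, he⟩ := Function.ne_iff.1 h
    apply prod_eq_zero (mem_univ e)
    rw [AddChar.sum_mulShift _ hψ, if_neg, Nat.cast_zero]
    intro h3
    exact he (sub_eq_zero.1 h3).symm

/-- linear maps with given values at the characters -/
theorem lin_ext (hψ : ψ.IsPrimitive) (hr : (r : F) ≠ 0) {M : Type} [AddCommGroup M] [Module F M]
    (G : (E → ZMod r) → M) : ∃ L : ((E → ZMod r) → F) →ₗ[F] M, ∀ s, L (chi ψ s) = G s := by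
  classical
  refine ⟨∑ s : E → ZMod r, LinearMap.smulRight (cf ψ s) (((r : F) ^ Fintype.card E)⁻¹ • G s), ?_⟩
  intro s
  rw [LinearMap.sum_apply, Finset.sum_eq_single s]
  · rw [LinearMap.smulRight_apply, cf_chi hψ, if_pos rfl, smul_smul,
      mul_inv_cancel₀ (pow_ne_zero _ hr), one_smul]
  · intro t _ ht
    rw [LinearMap.smulRight_apply, cf_chi hψ, if_neg ht, zero_smul]
  · intro h
    exact absurd (mem_univ s) h

end Deg

end Pool.Agent.H65.RG
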