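import Pool.Agent.H65.RG.Cpl
import Pool.Agent.H46.SF2.Cmp

/-! # [SF2 K4] THE ALGORITHM: completeness with three types of certificates, no hypothesis on the places at infinity -/

namespace Pool.Agent.H65.RG

open Pool.Agent.H98.AL Pool.Agent.H85.SA Pool.Agent.H82.NS Pool.Agent.H46.SF2 Pool.Agent.H12.SF2

theorem complete2 {F : P2} {q : Polynomial ℤ} {B g : ℕ}
    (hF : Irreducible (MvPolynomial.map (Int.castRingHom (AlgebraicClosure ℚ)) F))
    (hq : Pool.Agent.H85.SF.Special q B (300 * (F.totalDegree + g))) (ha : Pool.Agent.H85.SF.AtInf q F)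
    (hg : Pool.Agent.H85.SF.GenusLE F g) :
    (∃ Z, Cer0 F Z) ∨ (∃ (Z : ℕ) (d : Dt), Cer F q (300 * (F.totalDegree + g)) Z d) ∨
      ∃ (Z : ℕ) (d : Dr), Cer2 F Z d := by
  obtain ⟨L, i1, i2, x, y, d, c, f, w⟩ := wq_ex hF
  obtain ⟨O, hinf⟩ := inf_ex w
  by_cases huni : ∀ V : ValuationSubring L, Inf ℚ (x + c * y) V → V = O
  · rcases complete_w w hinf huni hq ha hg with h | h
    · exact Or.inl h
    · exact Or.inr (Or.inl h)
  · push Not at huni
    obtain ⟨V, hV, hne⟩ := huni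
    have hd : (MvPolynomial.map (Int.castRingHom ℚ) F).totalDegree ≤ d := by
      rw [← w.gd]
      exact Finset.sup_mono (MvPolynomial.support_map_subset (Int.castRingHom ℚ) F)
    exact Or.inr (Or.inr (cer2_ex (fld_w w) w.ff (lc_of hd w.ct).2 hinf hV hne.symm))

end Pool.Agent.H65.RG
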