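import Pool.Agent.H93.RG.Mat

/-!
# FG for blocks of size `r`: the number of partial partitions that can be decoded (port of H3/Ac/Dec)

`card_delta`: for a given partial partition `ν` and a set `A` of points, a `δ` with `IsM r (ν ∪ δ)`,
`Disjoint ν δ`, `A ⊆ cov δ` all of whose blocks meet `A` is determined by the function that maps `v ∈ A` to the
other `r - 1` points of its block in `δ`, which are uncovered by `ν`.
-/

set_option autoImplicit false
set_option linter.unusedSectionVars false
set_option linter.unusedVariables false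

namespace Pool.Agent.H65.RG

open Finset
open Pool.Agent.H93.RG

variable {V : Type} [Fintype V] [DecidableEq V] {r : ℕ}

private theorem fst_mem' {F : List (Finset (Finset V))} {M t : Finset (Finset V)} (h : fst r F M = some t) :
    t ∈ F ∧ Cmp r t M := by
  unfold fst at h
  refine ⟨List.mem_of_find?_eq_some h, ?_⟩
  have := List.find?_some h
  simpa using this

open scoped Classical in
theorem card_delta (ν : Finset (Finset V)) (A : Finset V) :
    (univ.filter fun δ : Finset (Finset V) => IsM r (ν ∪ δ) ∧ Disjoint ν δ ∧ A ⊆ cov δ ∧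
      ∀ e ∈ δ, ∃ v ∈ e, v ∈ A).card ≤ (Fintype.card V - (cov ν).card) ^ ((r - 1) * A.card) := by
  set U : Finset V := (cov ν)ᶜ with hU
  have hUc : U.card = Fintype.card V - (cov ν).card := by rw [hU, card_compl]
  let Φ : (↥A → Fin (r - 1) → ↥U) → Finset (Finset V) := fun g =>
    A.attach.image fun v => insert v.1 (univ.image fun i => (g v i).1)
  have hsub : (univ.filter fun δ : Finset (Finset V) => IsM r (ν ∪ δ) ∧ Disjoint ν δ ∧ A ⊆ cov δ ∧
      ∀ e ∈ δ, ∃ v ∈ e, v ∈ A) ⊆ univ.image Φ := by
    intro δ hδ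
    simp only [mem_filter, mem_univ, true_and] at hδ
    obtain ⟨hM, hd, hA, ht⟩ := hδ
    have key : ∀ v : ↥A, ∃ g : Fin (r - 1) → ↥U, insert v.1 (univ.image fun i => (g i).1) ∈ δ := by
      intro v
      obtain ⟨e, he, hve⟩ := mem_cov.1 (hA v.2)
      have hec : e.card = r := hM.1 e (mem_union_right _ he)
      have hcard : (e.erase v.1).card = r - 1 := by rw [card_erase_of_mem hve, hec]
      let q : ↥(e.erase v.1) ≃ Fin (r - 1) := (e.erase v.1).equivFinOfCardEq hcard
      have hmem : ∀ i : Fin (r - 1), (q.symm i).1 ∈ U := by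
        intro i
        have hi : (q.symm i).1 ∈ e := mem_of_mem_erase (q.symm i).2
        rw [hU, mem_compl]
        intro hu
        obtain ⟨f, hf, huf⟩ := mem_cov.1 hu
        have h1 := hM.2 f (mem_union_left _ hf) _ (mem_union_right _ he) _ huf hi
        exact (Finset.disjoint_left.1 hd hf) (h1 ▸ he)
      refine ⟨fun i => ⟨(q.symm i).1, hmem i⟩, ?_⟩
      have himg : (univ.image fun i : Fin (r - 1) => (q.symm i).1) = e.erase v.1 := by
        ext u
        simp only [mem_image, mem_univ, true_and]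
        constructor
        · rintro ⟨i, rfl⟩
          exact (q.symm i).2
        · intro hu
          exact ⟨q ⟨u, hu⟩, by simp⟩
      have h2 : insert v.1 (univ.image fun i : Fin (r - 1) => (q.symm i).1) = e := by
        rw [himg, insert_erase hve]
      show insert v.1 (univ.image fun i : Fin (r - 1) => (q.symm i).1) ∈ δ
      rw [h2]
      exact he
    choose g hg using key
    rw [mem_image]
    refine ⟨g, mem_univ _, ?_⟩
    ext e
    simp only [Φ, mem_image, mem_attach, true_and]
    constructor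
    · rintro ⟨v, rfl⟩
      exact hg v
    · intro he
      obtain ⟨v, hve, hvA⟩ := ht e he
      exact ⟨⟨v, hvA⟩, hM.2 _ (mem_union_right _ (hg ⟨v, hvA⟩)) _ (mem_union_right _ he) v
        (mem_insert_self _ _) hve⟩
  calc _ ≤ (univ.image Φ).card := card_le_card hsub
    _ ≤ (univ : Finset (↥A → Fin (r - 1) → ↥U)).card := card_image_le
    _ = U.card ^ ((r - 1) * A.card) := by
        rw [card_univ, Fintype.card_fun, Fintype.card_fun, Fintype.card_coe, Fintype.card_coe,
          Fintype.card_fin, ← pow_mul]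
    _ = _ := by rw [hUc]

theorem sum_two_pow (j : ℕ) : ∑ a ∈ Finset.Icc 1 j, 2 ^ (j - a) ≤ 2 ^ j := by
  have h : ∑ a ∈ Finset.Icc 1 j, 2 ^ (j - a) + 1 = 2 ^ j := by
    induction j with
    | zero => simp
    | succ j ih =>
      rw [Finset.sum_Icc_succ_top (by omega)]
      have h1 : ∑ a ∈ Finset.Icc 1 j, 2 ^ (j + 1 - a) =
          2 * ∑ a ∈ Finset.Icc 1 j, 2 ^ (j - a) := by
        rw [Finset.mul_sum]
        refine Finset.sum_congr rfl fun a ha => ?_
        have := (Finset.mem_Icc.1 ha).2
        rw [show j + 1 - a = (j - a) + 1 by omega, pow_succ]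
        ring
      rw [h1, Nat.sub_self, pow_zero, pow_succ]
      omega
  omega

open scoped Classical in
theorem card_DecR (hr : 1 ≤ r) (F : List (Finset (Finset V))) (w ℓ : ℕ) (hF : ∀ t ∈ F, IsM r t ∧ t.card ≤ w) :
    ∀ (j : ℕ) (μ θ : Finset (Finset V)), IsM r μ → Fintype.card V + r * j ≤ r * μ.card + ℓ →
      (univ.filter fun ρ => DecR r F j μ θ ρ).card ≤ (2 * w * ℓ ^ (r * (r - 1))) ^ j := by
  intro j
  induction j using Nat.strong_induction_on with
  | _ j ih =>
  intro μ θ hμ hcard
  rcases Nat.eq_zero_or_pos j with hj | hj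
  · subst hj
    rw [pow_zero, card_le_one]
    have h0 : ∀ ρ, DecR r F 0 μ θ ρ → ρ = μ \ θ := by
      intro ρ hρ
      generalize hk : (0 : ℕ) = k at hρ
      cases hρ with
      | nil => rfl
      | cons j μ θ ρ t σ δ h1 h2 h3 h4 h5 h6 h7 h8 h9 =>
        have := h4.card_pos
        omega
    intro a ha b hb
    simp only [mem_filter, mem_univ, true_and] at ha hb
    rw [h0 a ha, h0 b hb]
  · have hinv : ∀ ρ, DecR r F j μ θ ρ → ∃ t σ δ, fst r F μ = some t ∧ σ ⊆ t ∧ σ ⊆ μ ∧ σ.Nonempty ∧
        IsM r ((μ \ σ) ∪ δ) ∧ Disjoint (μ \ σ) δ ∧ cov σ ⊆ cov δ ∧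
        (∀ e ∈ δ, ∃ v ∈ e, v ∈ cov σ) ∧ σ.card ≤ j ∧
        DecR r F (j - σ.card) ((μ \ σ) ∪ δ) (θ ∪ δ) ρ := by
      intro ρ hρ
      cases hρ with
      | nil => omega
      | cons j μ θ ρ t σ δ h1 h2 h3 h4 h5 h6 h7 h8 h9 =>
        refine ⟨t, σ, δ, h1, h2, h3, h4, h5, h6, h7, h8, by omega, ?_⟩
        rwa [Nat.add_sub_cancel]
    rcases ht : fst r F μ with _ | t
    · have : (univ.filter fun ρ => DecR r F j μ θ ρ) = ∅ := by
        rw [filter_eq_empty_iff]
        intro ρ _ hρ
        obtain ⟨t, σ, δ, h1, -⟩ := hinv ρ hρ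
        rw [ht] at h1
        cases h1
      rw [this, card_empty]
      exact Nat.zero_le _
    · have htF := (fst_mem' ht).1
      have htw := (hF t htF).2
      have htM := (hF t htF).1
      let D : Finset (Finset V) → Finset (Finset (Finset V)) := fun σ =>
        univ.filter fun δ : Finset (Finset V) => IsM r ((μ \ σ) ∪ δ) ∧ Disjoint (μ \ σ) δ ∧
          cov σ ⊆ cov δ ∧ ∀ e ∈ δ, ∃ v ∈ e, v ∈ cov σ
      have hsub : (univ.filter fun ρ => DecR r F j μ θ ρ) ⊆
          (Finset.Icc 1 j).biUnion fun a => ((powersetCard a t).filter fun σ => σ ⊆ μ).biUnion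
            fun σ => (D σ).biUnion fun δ =>
              univ.filter fun ρ => DecR r F (j - a) ((μ \ σ) ∪ δ) (θ ∪ δ) ρ := by
        intro ρ hρ
        simp only [mem_filter, mem_univ, true_and] at hρ
        obtain ⟨t', σ, δ, h1, h2, h3, h4, h5, h6, h7, h8, h9, h10⟩ := hinv ρ hρ
        rw [ht] at h1
        obtain rfl := Option.some.inj h1
        rw [mem_biUnion]
        refine ⟨σ.card, mem_Icc.2 ⟨h4.card_pos, h9⟩, ?_⟩
        rw [mem_biUnion]
        refine ⟨σ, mem_filter.2 ⟨mem_powersetCard.2 ⟨h2, rfl⟩, h3⟩, ?_⟩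
        rw [mem_biUnion]
        refine ⟨δ, mem_filter.2 ⟨mem_univ _, h5, h6, h7, h8⟩, ?_⟩
        exact mem_filter.2 ⟨mem_univ _, h10⟩
      have hbound : ∀ a ∈ Finset.Icc 1 j, (((powersetCard a t).filter fun σ => σ ⊆ μ).biUnion
            fun σ => (D σ).biUnion fun δ =>
              univ.filter fun ρ => DecR r F (j - a) ((μ \ σ) ∪ δ) (θ ∪ δ) ρ).card ≤
            (w * ℓ ^ (r * (r - 1))) ^ j * 2 ^ (j - a) := by
        intro a ha
        have ha1 := (mem_Icc.1 ha).1
        have ha2 := (mem_Icc.1 ha).2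
        have hσ : ∀ σ ∈ (powersetCard a t).filter fun σ => σ ⊆ μ,
            ((D σ).biUnion fun δ =>
              univ.filter fun ρ => DecR r F (j - a) ((μ \ σ) ∪ δ) (θ ∪ δ) ρ).card ≤
            ℓ ^ ((r * (r - 1)) * a) * (2 * w * ℓ ^ (r * (r - 1))) ^ (j - a) := by
          intro σ hσ
          obtain ⟨hσ1, hσμ⟩ := mem_filter.1 hσ
          obtain ⟨hσt, hσa⟩ := mem_powersetCard.1 hσ1
          have hσM : IsM r σ := isM_sub hμ hσμ
          have hνM : IsM r (μ \ σ) := isM_sub hμ sdiff_subset
          have hν : (μ \ σ).card = μ.card - a := by rw [card_sdiff_of_subset hσμ, hσa]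
          have hμa : a ≤ μ.card := hσa ▸ card_le_card hσμ
          have hra : r * a ≤ r * j := Nat.mul_le_mul_left r ha2
          have hrs : r * (μ.card - a) + r * a = r * μ.card := by
            rw [← Nat.mul_add, Nat.sub_add_cancel hμa]
          have hrj : r * (j - a) + r * a = r * j := by
            rw [← Nat.mul_add, Nat.sub_add_cancel ha2]
          have hD : (D σ).card ≤ ℓ ^ ((r * (r - 1)) * a) := by
            refine (card_delta (μ \ σ) (cov σ)).trans ?_
            rw [card_cov hσM, hσa, card_cov hνM, hν,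
              show (r - 1) * (r * a) = (r * (r - 1)) * a by ring]
            exact Nat.pow_le_pow_left (by omega) _
          have hρ : ∀ δ ∈ D σ, (univ.filter fun ρ =>
              DecR r F (j - a) ((μ \ σ) ∪ δ) (θ ∪ δ) ρ).card ≤
              (2 * w * ℓ ^ (r * (r - 1))) ^ (j - a) := by
            intro δ hδ
            obtain ⟨-, h5, h6, h7, h8⟩ := mem_filter.1 hδ
            refine ih (j - a) (by omega) _ _ h5 ?_
            have hδM : IsM r δ := isM_sub h5 subset_union_right
            have h9 := card_le_card h7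
            rw [card_cov hσM, card_cov hδM, hσa] at h9
            rw [card_union_of_disjoint h6, hν, Nat.mul_add]
            omega
          refine (card_biUnion_le_card_mul _ _ _ hρ).trans ?_
          exact Nat.mul_le_mul_right _ hD
        refine (card_biUnion_le_card_mul _ _ _ hσ).trans ?_
        have hc : ((powersetCard a t).filter fun σ => σ ⊆ μ).card ≤ w ^ a := by
          refine (card_filter_le _ _).trans ?_
          rw [card_powersetCard]
          exact (Nat.choose_le_pow _ _).trans (Nat.pow_le_pow_left htw _)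
        refine (Nat.mul_le_mul_right _ hc).trans ?_
        generalize r * (r - 1) = s
        have e1 : (w * ℓ ^ s) ^ j = (w * ℓ ^ s) ^ a * (w * ℓ ^ s) ^ (j - a) := by
          rw [← pow_add]; congr 1; omega
        rw [e1]
        apply le_of_eq
        rw [mul_pow w, ← pow_mul, show 2 * w * ℓ ^ s = 2 * (w * ℓ ^ s) by ring, mul_pow 2]
        ring
      calc (univ.filter fun ρ => DecR r F j μ θ ρ).card ≤ _ := card_le_card hsub
        _ ≤ ∑ a ∈ Finset.Icc 1 j, _ := card_biUnion_le
        _ ≤ ∑ a ∈ Finset.Icc 1 j, (w * ℓ ^ (r * (r - 1))) ^ j * 2 ^ (j - a) := sum_le_sum hbound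
        _ = (w * ℓ ^ (r * (r - 1))) ^ j * ∑ a ∈ Finset.Icc 1 j, 2 ^ (j - a) := by rw [mul_sum]
        _ ≤ (w * ℓ ^ (r * (r - 1))) ^ j * 2 ^ j := Nat.mul_le_mul_left _ (sum_two_pow j)
        _ = (2 * w * ℓ ^ (r * (r - 1))) ^ j := by rw [← mul_pow]; congr 1; ring

end Pool.Agent.H65.RG
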