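import Pool.Agent.H93.FG.SubD
import Pool.Agent.H93.RG.Defs

/-!
# Short derivations with MOD gates: tools
-/

set_option autoImplicit false
set_option linter.unusedSectionVars false

namespace Pool.Agent.H65.RG

open Pool.Agent.H3.Frg hiding ind
open Pool.Agent.H67.FG

variable {V : Type}

/-- derivations: every line is a hypothesis, an instance, or follows by modus ponens -/
inductive Okl (m k : ℕ) (Hyp : Set (Fo V)) : List (Fo V) → Prop
  | nil : Okl m k Hyp []
  | hyp (l : List (Fo V)) (A : Fo V) : Okl m k Hyp l → A ∈ Hyp → Okl m k Hyp (l ++ [A])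
  | ax (l : List (Fo V)) (ψ : Fm ℕ) (σ : ℕ → Fo V) : Okl m k Hyp l → ψ.len ≤ k →
      (∀ v : Fo V → Bool, Resp m v → ψ.eval (fun n => v (σ n)) = true) → Okl m k Hyp (l ++ [inst σ ψ])
  | mp (l : List (Fo V)) (A B : Fo V) : Okl m k Hyp l → A ∈ l → .imp A B ∈ l → Okl m k Hyp (l ++ [B])

variable {m k : ℕ} {Hyp : Set (Fo V)}

theorem Okl.append {l l' : List (Fo V)} (h : Okl m k Hyp l) (h' : Okl m k Hyp l') : Okl m k Hyp (l ++ l') := by
  induction h' with
  | nil => simpa using h
  | hyp l' A _ hA ih =>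
    rw [← List.append_assoc]
    exact .hyp _ _ ih hA
  | ax l' ψ σ _ h1 h2 ih =>
    rw [← List.append_assoc]
    exact .ax _ _ _ ih h1 h2
  | mp l' A B _ hA hB ih =>
    rw [← List.append_assoc]
    exact .mp _ A B ih (List.mem_append_right _ hA) (List.mem_append_right _ hB)

theorem Okl.line {l : List (Fo V)} (h : Okl m k Hyp l) : ∀ (i : ℕ) (hi : i < l.length), l[i] ∈ Hyp ∨
    (∃ (ψ : Fm ℕ) (σ : ℕ → Fo V), ψ.len ≤ k ∧ (∀ v : Fo V → Bool, Resp m v → ψ.eval (fun n => v (σ n)) = true) ∧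
      l[i] = inst σ ψ) ∨
    ∃ (j j' : ℕ) (hj : j < i) (hl : j' < i), l[j'] = .imp l[j] l[i] := by
  have main : ∀ (l : List (Fo V)) (B : Fo V), (∀ (i : ℕ) (hi : i < l.length), l[i] ∈ Hyp ∨
      (∃ (ψ : Fm ℕ) (σ : ℕ → Fo V), ψ.len ≤ k ∧
        (∀ v : Fo V → Bool, Resp m v → ψ.eval (fun n => v (σ n)) = true) ∧ l[i] = inst σ ψ) ∨
      ∃ (j j' : ℕ) (hj : j < i) (hl : j' < i), l[j'] = .imp l[j] l[i]) →
      (B ∈ Hyp ∨ (∃ (ψ : Fm ℕ) (σ : ℕ → Fo V), ψ.len ≤ k ∧
        (∀ v : Fo V → Bool, Resp m v → ψ.eval (fun n => v (σ n)) = true) ∧ B = inst σ ψ) ∨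
        ∃ A, A ∈ l ∧ .imp A B ∈ l) → ∀ (i : ℕ) (hi : i < (l ++ [B]).length), (l ++ [B])[i] ∈ Hyp ∨
      (∃ (ψ : Fm ℕ) (σ : ℕ → Fo V), ψ.len ≤ k ∧
        (∀ v : Fo V → Bool, Resp m v → ψ.eval (fun n => v (σ n)) = true) ∧ (l ++ [B])[i] = inst σ ψ) ∨
      ∃ (j j' : ℕ) (hj : j < i) (hl : j' < i), (l ++ [B])[j'] = .imp (l ++ [B])[j] (l ++ [B])[i] := by
    intro l B ih hB i hi
    rw [List.length_append, List.length_singleton] at hi
    rcases Nat.lt_or_ge i l.length with h1 | h1
    · have e1 : (l ++ [B])[i] = l[i] := List.getElem_append_left h1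
      rw [e1]
      rcases ih i h1 with h2 | h2 | ⟨j, j', h2, h3, h4⟩
      · exact Or.inl h2
      · exact Or.inr (Or.inl h2)
      · refine Or.inr (Or.inr ⟨j, j', h2, h3, ?_⟩)
        rw [List.getElem_append_left (by omega), List.getElem_append_left (by omega)]
        exact h4
    · have h2 : i = l.length := by omega
      subst h2
      have e1 : (l ++ [B])[l.length] = B := by simp
      rw [e1]
      rcases hB with h2 | h2 | ⟨A, h2, h3⟩
      · exact Or.inl h2
      · exact Or.inr (Or.inl h2)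
      · obtain ⟨j, hj, h4⟩ := List.getElem_of_mem h2
        obtain ⟨j', hj', h5⟩ := List.getElem_of_mem h3
        refine Or.inr (Or.inr ⟨j, j', hj, hj', ?_⟩)
        rw [List.getElem_append_left hj, List.getElem_append_left hj', h4, h5]
  induction h with
  | nil =>
    intro i hi
    exact absurd hi (Nat.not_lt_zero i)
  | hyp l A _ hA ih => exact main l A ih (Or.inl hA)
  | ax l ψ σ _ h1 h2 ih => exact main l _ ih (Or.inr (Or.inl ⟨ψ, σ, h1, h2, rfl⟩))
  | mp l A B _ hA hB ih => exact main l B ih (Or.inr (Or.inr ⟨A, hA, hB⟩))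

/-- `A` has a derivation with at most `n` lines, all with the property `P` -/
def Drv (m k : ℕ) (Hyp : Set (Fo V)) (P : Fo V → Prop) (n : ℕ) (A : Fo V) : Prop :=
  ∃ l : List (Fo V), Okl m k Hyp l ∧ A ∈ l ∧ (∀ B ∈ l, P B) ∧ l.length ≤ n

variable {P : Fo V → Prop}

theorem Drv.mono {n n' : ℕ} {A : Fo V} (h : Drv m k Hyp P n A) (hn : n ≤ n') : Drv m k Hyp P n' A := by
  obtain ⟨l, h1, h2, h3, h4⟩ := h
  exact ⟨l, h1, h2, h3, h4.trans hn⟩

theorem Drv.hyp {A : Fo V} (hA : A ∈ Hyp) (hP : P A) : Drv m k Hyp P 1 A :=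
  ⟨[] ++ [A], .hyp [] A .nil hA, by simp, by simpa using hP, by simp⟩

theorem Drv.ax (ψ : Fm ℕ) (σ : ℕ → Fo V) (hk : ψ.len ≤ k)
    (hv : ∀ v : Fo V → Bool, Resp m v → ψ.eval (fun n => v (σ n)) = true) (hP : P (inst σ ψ)) :
    Drv m k Hyp P 1 (inst σ ψ) :=
  ⟨[] ++ [inst σ ψ], .ax [] ψ σ .nil hk hv, by simp, by simpa using hP, by simp⟩

theorem Drv.mp (hPi : ∀ A B, P (.imp A B) → P B) {n n' : ℕ} {A B : Fo V} (h : Drv m k Hyp P n (.imp A B))
    (h' : Drv m k Hyp P n' A) : Drv m k Hyp P (n + n' + 1) B := by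
  obtain ⟨l, h1, h2, h3, h4⟩ := h
  obtain ⟨l', h1', h2', h3', h4'⟩ := h'
  refine ⟨(l ++ l') ++ [B], .mp _ A B (h1.append h1') (List.mem_append_right _ h2')
    (List.mem_append_left _ h2), by simp, ?_, ?_⟩
  · intro C hC
    rw [List.mem_append, List.mem_append, List.mem_singleton] at hC
    rcases hC with (hC | hC) | hC
    · exact h3 C hC
    · exact h3' C hC
    · rw [hC]
      exact hPi A B (h3 _ h2)
  · rw [List.length_append, List.length_append, List.length_singleton]
    omega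

/-- the last step -/
theorem Drv.ref (hPi : ∀ A B, P (.imp A B) → P B) {n n' : ℕ} {A X : Fo V}
    (h : Drv m k Hyp P n (.imp A (.neg (.imp X X)))) (h' : Drv m k Hyp P n' A) :
    ∃ π : List (Fo V), IsRef m k Hyp π ∧ (∀ B ∈ π, P B) ∧ π.length ≤ n + n' + 1 := by
  obtain ⟨l, h1, h2, h3, h4⟩ := h
  obtain ⟨l', h1', h2', h3', h4'⟩ := h'
  have h5 : Okl m k Hyp ((l ++ l') ++ [.neg (.imp X X)]) := .mp _ A _ (h1.append h1') (List.mem_append_right _ h2')
    (List.mem_append_left _ h2)
  refine ⟨(l ++ l') ++ [.neg (.imp X X)], ⟨h5.line, by simp, X, by simp⟩, ?_, ?_⟩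
  · intro C hC
    rw [List.mem_append, List.mem_append, List.mem_singleton] at hC
    rcases hC with (hC | hC) | hC
    · exact h3 C hC
    · exact h3' C hC
    · rw [hC]
      exact hPi A _ (h3 _ h2)
  · rw [List.length_append, List.length_append, List.length_singleton]
    omega

/-- left depth of a scheme -/
def dpt : Fm ℕ → ℕ
  | .var _ => 0
  | .neg A => dpt A + 1
  | .imp A B => max (dpt A + 1) (dpt B)

theorem inst_dep {σ : ℕ → Fo V} {d : ℕ} (h : ∀ i, ∀ C ∈ (σ i).subs, C.dep ≤ d) :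
    ∀ ψ : Fm ℕ, ∀ C ∈ (inst σ ψ).subs, C.dep ≤ dpt ψ + d
  | .var i => fun C hC => by
    have := h i C hC
    simp only [dpt]
    omega
  | .neg A => fun C hC => by
    have ih := inst_dep h A
    have h0 := ih _ (H6.FG.self_mem_subs _)
    simp only [inst, Fo.subs, List.mem_cons] at hC
    simp only [dpt]
    rcases hC with rfl | hC
    · simp only [Fo.dep]
      omega
    · have := ih C hC
      omega
  | .imp A B => fun C hC => by
    have ihA := inst_dep h A
    have ihB := inst_dep h B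
    have hA := ihA _ (H6.FG.self_mem_subs _)
    have hB := ihB _ (H6.FG.self_mem_subs _)
    simp only [inst, Fo.subs, List.mem_cons, List.mem_append] at hC
    simp only [dpt]
    rcases hC with rfl | hC | hC
    · simp only [Fo.dep]
      omega
    · have := ihA C hC
      omega
    · have := ihB C hC
      omega

theorem inst_len {σ : ℕ → Fo V} {L : ℕ} (hL : 1 ≤ L) (h : ∀ i, (σ i).subs.length ≤ L) :
    ∀ ψ : Fm ℕ, (inst σ ψ).subs.length ≤ ψ.len * L
  | .var i => by
    simp only [inst, Fm.len, one_mul]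
    exact h i
  | .neg A => by
    have := inst_len hL h A
    simp only [inst, Fo.subs, Fm.len, List.length_cons]
    rw [Nat.add_mul]
    omega
  | .imp A B => by
    have h1 := inst_len hL h A
    have h2 := inst_len hL h B
    simp only [inst, Fo.subs, Fm.len, List.length_cons, List.length_append]
    rw [Nat.add_mul, Nat.add_mul]
    omega

theorem inst_outer {σ : ℕ → Fo V} {Γ : Set (Fo V)} (h : ∀ i, (σ i).outer ⊆ Γ) : ∀ ψ : Fm ℕ, (inst σ ψ).outer ⊆ Γ
  | .var i => h i
  | .neg A => inst_outer h A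
  | .imp A B => Set.union_subset (inst_outer h A) (inst_outer h B)

/-- a MOD gate over a list of variables -/
def gate (a : ℕ) (l : List V) : Fo V := .mod a l.length fun i => .var (l.get i)

theorem gate_subs_length (a : ℕ) (l : List V) : (gate a l).subs.length = l.length + 1 := by
  unfold gate
  rw [Fo.subs, List.length_cons, List.length_flatMap]
  simp [Fo.subs]

theorem gate_dep (a : ℕ) (l : List V) : ∀ C ∈ (gate a l).subs, C.dep ≤ 0 := by
  intro C hC
  unfold gate at hC
  rw [Fo.subs, List.mem_cons, List.mem_flatMap] at hC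
  rcases hC with rfl | ⟨i, -, hC⟩
  · simp [Fo.dep]
  · simp only [Fo.subs, List.mem_singleton] at hC
    subst hC
    simp [Fo.dep]

theorem countP_get (l : List V) (f : V → Bool) :
    (Finset.univ.filter fun i : Fin l.length => f (l.get i) = true).card = l.countP f := by
  induction l with
  | nil => simp
  | cons x l ih =>
    rw [List.countP_cons, ← ih]
    have h := Fin.card_filter_univ_succ' (fun i : Fin (l.length + 1) => f ((x :: l).get i) = true)
    have h2 : (Finset.univ.filter fun i : Fin (x :: l).length => f ((x :: l).get i) = true).card =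
      (Finset.univ.filter fun i : Fin (l.length + 1) => f ((x :: l).get i) = true).card := rfl
    rw [h2, h, add_comm]
    simp

theorem gate_resp {v : Fo V → Bool} (hv : Resp m v) (a : ℕ) (l : List V) :
    v (gate a l) = true ↔ l.countP (fun x => v (.var x)) % m = a % m := by
  unfold gate
  rw [hv, countP_get l (fun x => v (.var x))]

/-- the allowed lines -/
def PL (L : ℕ) (A : Fo V) : Prop := A.subs.length ≤ L ∧ (∀ B ∈ A.subs, B.dep ≤ 6) ∧ Few 3 1 A

theorem PL_imp {L : ℕ} (A B : Fo V) (h : PL L (.imp A B)) : PL L B := by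
  obtain ⟨h1, h2, Γ, h3, h4, h5, h6⟩ := h
  refine ⟨?_, ?_, Γ, h3, h4, ?_, h6⟩
  · simp only [Fo.subs, List.length_cons, List.length_append] at h1
    omega
  · intro C hC
    exact h2 C (by simp only [Fo.subs, List.mem_cons, List.mem_append]; exact Or.inr (Or.inr hC))
  · exact Set.subset_union_right.trans h5

/-- a gate free letter -/
def Lf (L : ℕ) (A : Fo V) : Prop := A.subs.length ≤ L ∧ (∀ B ∈ A.subs, B.dep ≤ 2) ∧ A.outer = ∅

/-- a gate as a letter -/
def Lg (L : ℕ) (A : Fo V) : Prop := ∃ (a : ℕ) (l : List V), A = gate a l ∧ l.length + 1 ≤ L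

theorem PL_inst {L : ℕ} (hL : 1 ≤ L) (gs fs : List (Fo V)) (X : Fo V) (hX : Lf L X) (hgs : ∀ A ∈ gs, Lg L A)
    (hfs : ∀ A ∈ fs, Lf L A) (h3 : gs.length ≤ 3) (ψ : Fm ℕ) (h4 : ψ.len ≤ 20) (h5 : dpt ψ ≤ 4) :
    PL (20 * L) (inst (fun i => (gs ++ fs).getD i X) ψ) := by
  have hcase : ∀ i, Lg L ((gs ++ fs).getD i X) ∧ (gs ++ fs).getD i X ∈ gs ∨ Lf L ((gs ++ fs).getD i X) := by
    intro i
    rw [List.getD_eq_getElem?_getD]
    rcases Nat.lt_or_ge i (gs ++ fs).length with h | h
    · rw [List.getElem?_eq_getElem h, Option.getD_some]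
      rcases List.mem_append.1 (List.getElem_mem h) with h6 | h6
      · exact Or.inl ⟨hgs _ h6, h6⟩
      · exact Or.inr (hfs _ h6)
    · rw [List.getElem?_eq_none h, Option.getD_none]
      exact Or.inr hX
  refine ⟨?_, ?_, {A | A ∈ gs}, List.finite_toSet gs, ?_, ?_, ?_⟩
  · refine (inst_len hL ?_ ψ).trans (Nat.mul_le_mul_right _ h4)
    intro i
    rcases hcase i with ⟨⟨a, l, h6, h7⟩, -⟩ | h6
    · rw [h6, gate_subs_length]
      exact h7
    · exact h6.1
  · intro B hB
    refine (inst_dep (d := 2) ?_ ψ B hB).trans (by omega)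
    intro i C hC
    rcases hcase i with ⟨⟨a, l, h6, h7⟩, -⟩ | h6
    · rw [h6] at hC
      exact (gate_dep a l C hC).trans (by omega)
    · exact h6.2.1 C hC
  · classical
    have : {A | A ∈ gs} = (↑gs.toFinset : Set (Fo V)) := by
      ext A
      simp
    rw [this, Set.ncard_coe_finset]
    exact (List.toFinset_card_le _).trans h3
  · apply inst_outer
    intro i
    rcases hcase i with ⟨⟨a, l, h6, h7⟩, h8⟩ | h6
    · intro C hC
      rw [h6] at hC
      have : C = gate a l := hC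
      rw [this, ← h6]
      exact h8
    · rw [h6.2.2]
      exact Set.empty_subset _
  · intro a n f hf i
    obtain ⟨b, l, h6, -⟩ := hgs _ hf
    right
    unfold gate at h6
    injection h6 with h7 h8 h9
    subst h8
    have := eq_of_heq h9
    subst this
    rfl

/-- pure instances: no gates -/
theorem Lf.PL {L : ℕ} {A : Fo V} (h : Lf L A) : PL (20 * L) A := by
  refine ⟨h.1.trans (by omega), fun B hB => (h.2.1 B hB).trans (by omega), ∅, Set.finite_empty, by simp, ?_, ?_⟩
  · rw [h.2.2]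
  · intro a n f hf
    exact absurd hf (Set.notMem_empty _)

end Pool.Agent.H65.RG
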