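import Pool.Agent.H65.RG.Drv

/-!
# The counting principle for blocks of size `r` has short refutations with few MOD gates, if `gcd (r, m)` does not
divide the number of points
-/

set_option autoImplicit false
set_option linter.unusedSectionVars false

namespace Pool.Agent.H65.RG

open Pool.Agent.H3.Frg hiding ind
open Pool.Agent.H67.FG
open Pool.Agent.H93.RG (Count)

variable {V : Type} {m : ℕ} {Hyp : Set (Fo V)}

/-- the disjunction of the variables of the list (and a contradiction) -/
def T (x0 : V) (l : List V) : Fo V := orAll (l.map .var) (.neg (.imp (.var x0) (.var x0)))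

theorem T_nil (x0 : V) : T x0 [] = .neg (.imp (.var x0) (.var x0)) := rfl

theorem T_cons (x0 x : V) (l : List V) : T x0 (x :: l) = .imp (.neg (.var x)) (T x0 l) := rfl

theorem T_len (x0 : V) (l : List V) : (T x0 l).subs.length = 3 * l.length + 4 := by
  induction l with
  | nil => simp [T_nil, Fo.subs]
  | cons x l ih =>
    rw [T_cons]
    simp only [Fo.subs, List.length_cons, List.length_append, ih, List.length_nil]
    omega

theorem T_dep (x0 : V) (l : List V) : ∀ C ∈ (T x0 l).subs, C.dep ≤ 2 := by
  induction l with
  | nil =>
    intro C hC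
    rw [T_nil] at hC
    simp only [Fo.subs, List.mem_cons, List.mem_append, List.not_mem_nil, or_false] at hC
    rcases hC with rfl | rfl | rfl | rfl <;> simp [Fo.dep]
  | cons x l ih =>
    intro C hC
    rw [T_cons] at hC
    simp only [Fo.subs, List.mem_cons, List.mem_append, List.not_mem_nil, or_false] at hC
    have h0 := ih _ (H6.FG.self_mem_subs _)
    rcases hC with rfl | (rfl | rfl) | hC
    · simp only [Fo.dep]
      omega
    · simp [Fo.dep]
    · simp [Fo.dep]
    · exact ih C hC

theorem T_outer (x0 : V) (l : List V) : (T x0 l).outer = ∅ := by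
  induction l with
  | nil => simp [T_nil, Fo.outer]
  | cons x l ih =>
    rw [T_cons]
    simp only [Fo.outer, ih, Set.union_self]

theorem T_lf {L : ℕ} (x0 : V) (l : List V) (h : 3 * l.length + 4 ≤ L) : Lf L (T x0 l) :=
  ⟨(T_len x0 l).trans_le h, T_dep x0 l, T_outer x0 l⟩

theorem var_lf {L : ℕ} (x : V) (h : 1 ≤ L) : Lf L (.var x) := by
  refine ⟨by simpa [Fo.subs] using h, ?_, rfl⟩
  intro C hC
  simp only [Fo.subs, List.mem_singleton] at hC
  subst hC
  simp [Fo.dep]

theorem excl_lf {L : ℕ} (x y : V) (h : 4 ≤ L) : Lf L (.imp (.var x) (.neg (.var y))) := by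
  refine ⟨by simpa [Fo.subs] using h, ?_, by simp [Fo.outer]⟩
  intro C hC
  simp only [Fo.subs, List.mem_cons, List.mem_append, List.not_mem_nil, or_false] at hC
  rcases hC with rfl | rfl | rfl | rfl <;> simp [Fo.dep]

/-- `x` excludes the disjunction -/
theorem drvE {L : ℕ} (x0 x : V) (l : List V) (hex : ∀ y ∈ l, .imp (.var x) (.neg (.var y)) ∈ Hyp)
    (hL : 3 * l.length + 4 ≤ L) :
    Drv m 20 Hyp (PL (20 * L)) (4 * l.length + 1) (.imp (.var x) (.neg (T x0 l))) := by
  have hL4 : 4 ≤ L := by omega
  induction l with
  | nil =>
    refine Drv.ax (k := 20) (.imp (.var 0) (.neg (.neg (.imp (.var 1) (.var 1)))))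
      (fun i => (([] : List (Fo V)) ++ [Fo.var x]).getD i (Fo.var x0)) (by simp [Fm.len]) ?_ ?_
    · intro v _
      simp [Fm.eval]
    · exact PL_inst (by omega) [] [.var x] _ (var_lf x0 (by omega)) (by simp)
        (by simpa using var_lf x (by omega)) (by simp) _ (by simp [Fm.len]) (by simp [dpt])
  | cons y l ih =>
    rw [List.length_cons] at hL
    have h1 : Drv m 20 Hyp (PL (20 * L)) 1 (.imp (.imp (.var x) (.neg (.var y)))
        (.imp (.imp (.var x) (.neg (T x0 l))) (.imp (.var x) (.neg (T x0 (y :: l)))))) := by
      refine Drv.ax (k := 20) (.imp (.imp (.var 0) (.neg (.var 1))) (.imp (.imp (.var 0) (.neg (.var 2)))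
        (.imp (.var 0) (.neg (.imp (.neg (.var 1)) (.var 2))))))
        (fun i => (([] : List (Fo V)) ++ [.var x, .var y, T x0 l]).getD i (.var x0)) (by simp [Fm.len]) ?_ ?_
      · intro v _
        simp only [Fm.eval, List.nil_append, List.getD_cons_zero, List.getD_cons_succ]
        generalize v (.var x) = a
        generalize v (.var y) = b
        generalize v (T x0 l) = c
        revert a b c
        decide
      · refine PL_inst (by omega) [] [.var x, .var y, T x0 l] _ (var_lf x0 (by omega)) (by simp) ?_ (by simp) _
          (by simp [Fm.len]) (by simp [dpt])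
        intro A hA
        simp only [List.mem_cons, List.not_mem_nil, or_false] at hA
        rcases hA with rfl | rfl | rfl
        · exact var_lf x (by omega)
        · exact var_lf y (by omega)
        · exact T_lf x0 l (by omega)
    have h2 : Drv m 20 Hyp (PL (20 * L)) 1 (.imp (.var x) (.neg (.var y))) :=
      Drv.hyp (hex y (by simp)) (excl_lf x y hL4).PL
    have h3 := ih (fun z hz => hex z (List.mem_cons_of_mem _ hz)) (by omega)
    have h4 := (h1.mp PL_imp h2).mp PL_imp h3
    exact h4.mono (by rw [List.length_cons]; omega)

/-- no variable is true -/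
theorem drvZ {L : ℕ} (x0 : V) (l : List V) (hL : 3 * l.length + 4 ≤ L) :
    Drv m 20 Hyp (PL (20 * L)) (2 * l.length + 1) (.imp (.neg (T x0 l)) (gate 0 l)) := by
  induction l with
  | nil =>
    refine Drv.ax (k := 20) (.imp (.neg (.neg (.imp (.var 1) (.var 1)))) (.var 0))
      (fun i => (([gate 0 []] : List (Fo V)) ++ []).getD i (.var x0)) (by simp [Fm.len]) ?_ ?_
    · intro v hv
      have h1 := (gate_resp hv 0 ([] : List V)).2 (by simp)
      simp [Fm.eval, h1]
    · refine PL_inst (by omega) [gate 0 []] [] _ (var_lf x0 (by omega)) ?_ (by simp) (by simp) _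
        (by simp [Fm.len]) (by simp [dpt])
      intro A hA
      rw [List.mem_singleton] at hA
      exact ⟨0, [], hA, by simp at hL ⊢; omega⟩
  | cons y l ih =>
    rw [List.length_cons] at hL
    have h1 : Drv m 20 Hyp (PL (20 * L)) 1 (.imp (.imp (.neg (T x0 l)) (gate 0 l))
        (.imp (.neg (T x0 (y :: l))) (gate 0 (y :: l)))) := by
      refine Drv.ax (k := 20) (.imp (.imp (.neg (.var 3)) (.var 0)) (.imp (.neg (.imp (.neg (.var 2)) (.var 3))) (.var 1)))
        (fun i => (([gate 0 l, gate 0 (y :: l)] : List (Fo V)) ++ [.var y, T x0 l]).getD i (.var x0))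
        (by simp [Fm.len]) ?_ ?_
      · intro v hv
        have e1 := gate_resp hv 0 l
        have e2 := gate_resp hv 0 (y :: l)
        rw [List.countP_cons] at e2
        simp only [Fm.eval, List.cons_append, List.nil_append, List.getD_cons_zero, List.getD_cons_succ]
        cases hy : v (.var y) with
        | true => simp
        | false =>
          rw [hy] at e2
          simp only [Bool.false_eq_true, if_false, Nat.add_zero] at e2
          have e3 : v (gate 0 (y :: l)) = v (gate 0 l) := Bool.eq_iff_iff.2 (e2.trans e1.symm)
          rw [e3]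
          generalize v (gate 0 l) = a
          generalize v (T x0 l) = c
          revert a c
          decide
      · refine PL_inst (by omega) [gate 0 l, gate 0 (y :: l)] [.var y, T x0 l] _ (var_lf x0 (by omega)) ?_ ?_
          (by simp) _ (by simp [Fm.len]) (by simp [dpt])
        · intro A hA
          simp only [List.mem_cons, List.not_mem_nil, or_false] at hA
          rcases hA with rfl | rfl
          · exact ⟨0, l, rfl, by omega⟩
          · exact ⟨0, y :: l, rfl, by rw [List.length_cons]; omega⟩
        · intro A hA
          simp only [List.mem_cons, List.not_mem_nil, or_false] at hA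
          rcases hA with rfl | rfl
          · exact var_lf y (by omega)
          · exact T_lf x0 l (by omega)
    exact (h1.mp PL_imp (ih (by omega))).mono (by rw [List.length_cons]; omega)

/-- exactly one variable is true -/
theorem drvO {L : ℕ} (x0 : V) (l : List V)
    (hex : l.Pairwise fun x y => .imp (.var x) (.neg (.var y)) ∈ Hyp) (hL : 3 * l.length + 4 ≤ L) :
    Drv m 20 Hyp (PL (20 * L)) (6 * (l.length + 1) ^ 2) (.imp (T x0 l) (gate 1 l)) := by
  induction l with
  | nil =>
    refine Drv.mono (n := 1) ?_ (by simp)
    refine Drv.ax (k := 20) (.imp (.neg (.imp (.var 1) (.var 1))) (.var 0))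
      (fun i => (([gate 1 []] : List (Fo V)) ++ []).getD i (.var x0)) (by simp [Fm.len]) ?_ ?_
    · intro v hv
      simp [Fm.eval]
    · refine PL_inst (by omega) [gate 1 []] [] _ (var_lf x0 (by omega)) ?_ (by simp) (by simp) _
        (by simp [Fm.len]) (by simp [dpt])
      intro A hA
      rw [List.mem_singleton] at hA
      exact ⟨1, [], hA, by simp at hL ⊢; omega⟩
  | cons y l ih =>
    rw [List.length_cons] at hL
    rw [List.pairwise_cons] at hex
    have h1 : Drv m 20 Hyp (PL (20 * L)) 1 (.imp (.imp (T x0 l) (gate 1 l)) (.imp (.imp (.neg (T x0 l)) (gate 0 l))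
        (.imp (.imp (.var y) (.neg (T x0 l))) (.imp (T x0 (y :: l)) (gate 1 (y :: l)))))) := by
      refine Drv.ax (k := 20) (.imp (.imp (.var 4) (.var 1)) (.imp (.imp (.neg (.var 4)) (.var 0))
        (.imp (.imp (.var 3) (.neg (.var 4))) (.imp (.imp (.neg (.var 3)) (.var 4)) (.var 2)))))
        (fun i => (([gate 0 l, gate 1 l, gate 1 (y :: l)] : List (Fo V)) ++ [.var y, T x0 l]).getD i (.var x0))
        (by simp [Fm.len]) ?_ ?_
      · intro v hv
        have e0 := gate_resp hv 0 l
        have e1 := gate_resp hv 1 l
        have e2 := gate_resp hv 1 (y :: l)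
        rw [List.countP_cons] at e2
        simp only [Fm.eval, List.cons_append, List.nil_append, List.getD_cons_zero, List.getD_cons_succ]
        cases hy : v (.var y) with
        | true =>
          rw [hy] at e2
          simp only [if_true] at e2
          have e3 : v (gate 0 l) = true → v (gate 1 (y :: l)) = true := by
            intro h
            rw [e2]
            have h' := e0.1 h
            exact Nat.ModEq.add_right 1 (show _ ≡ 0 [MOD m] from h')
          revert e3
          generalize v (gate 0 l) = a
          generalize v (gate 1 l) = b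
          generalize v (gate 1 (y :: l)) = c
          generalize v (T x0 l) = d
          revert a b c d
          decide
        | false =>
          rw [hy] at e2
          simp only [Bool.false_eq_true, if_false, Nat.add_zero] at e2
          have e3 : v (gate 1 (y :: l)) = v (gate 1 l) := Bool.eq_iff_iff.2 (e2.trans e1.symm)
          rw [e3]
          generalize v (gate 0 l) = a
          generalize v (gate 1 l) = b
          generalize v (T x0 l) = d
          revert a b d
          decide
      · refine PL_inst (by omega) [gate 0 l, gate 1 l, gate 1 (y :: l)] [.var y, T x0 l] _ (var_lf x0 (by omega)) ?_ ?_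
          (by simp) _ (by simp [Fm.len]) (by simp [dpt])
        · intro A hA
          simp only [List.mem_cons, List.not_mem_nil, or_false] at hA
          rcases hA with rfl | rfl | rfl
          · exact ⟨0, l, rfl, by omega⟩
          · exact ⟨1, l, rfl, by omega⟩
          · exact ⟨1, y :: l, rfl, by rw [List.length_cons]; omega⟩
        · intro A hA
          simp only [List.mem_cons, List.not_mem_nil, or_false] at hA
          rcases hA with rfl | rfl
          · exact var_lf y (by omega)
          · exact T_lf x0 l (by omega)
    have h2 := ih hex.2 (by omega)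
    have h3 : Drv m 20 Hyp (PL (20 * L)) (2 * l.length + 1) (.imp (.neg (T x0 l)) (gate 0 l)) :=
      drvZ x0 l (by omega)
    have h4 : Drv m 20 Hyp (PL (20 * L)) (4 * l.length + 1) (.imp (.var y) (.neg (T x0 l))) :=
      drvE x0 y l hex.1 (by omega)
    refine (((h1.mp PL_imp h2).mp PL_imp h3).mp PL_imp h4).mono ?_
    rw [List.length_cons]
    nlinarith

/-- the number of true variables in the concatenation of the lists -/
theorem drvQ {L s : ℕ} (x0 : V) (ls : List (List V)) (hlen : ∀ l ∈ ls, l.length ≤ s)
    (hT : ∀ l ∈ ls, T x0 l ∈ Hyp) (hex : ∀ l ∈ ls, l.Pairwise fun x y => .imp (.var x) (.neg (.var y)) ∈ Hyp)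
    (hL : 3 * (ls.length * s) + 3 * s + 4 ≤ L) :
    Drv m 20 Hyp (PL (20 * L)) (ls.length * (6 * (s + 1) ^ 2 + 5) + 1) (gate ls.length ls.flatten) := by
  induction ls with
  | nil =>
    refine Drv.mono (n := 1) ?_ (by simp)
    refine Drv.ax (k := 20) (.var 0) (fun i => (([gate 0 []] : List (Fo V)) ++ []).getD i (.var x0)) (by simp [Fm.len]) ?_ ?_
    · intro v hv
      exact (gate_resp hv 0 ([] : List V)).2 (by simp)
    · refine PL_inst (by omega) [gate 0 []] [] _ (var_lf x0 (by omega)) ?_ (by simp) (by simp) _
        (by simp [Fm.len]) (by simp [dpt])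
      intro A hA
      rw [List.mem_singleton] at hA
      exact ⟨0, [], hA, by simp; omega⟩
  | cons l ls ih =>
    rw [List.length_cons] at hL ⊢
    rw [Nat.add_mul, one_mul] at hL
    have hls : l.length ≤ s := hlen l (by simp)
    have hfl : ls.flatten.length ≤ ls.length * s := by
      rw [List.length_flatten]
      have := List.sum_le_card_nsmul (ls.map List.length) s (by
        intro x hx
        obtain ⟨l', h1, rfl⟩ := List.mem_map.1 hx
        exact hlen l' (List.mem_cons_of_mem _ h1))
      simpa using this
    have h1 : Drv m 20 Hyp (PL (20 * L)) 1 (.imp (gate ls.length ls.flatten) (.imp (gate 1 l)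
        (gate (ls.length + 1) (l :: ls).flatten))) := by
      refine Drv.ax (k := 20) (.imp (.var 0) (.imp (.var 1) (.var 2)))
        (fun i => (([gate ls.length ls.flatten, gate 1 l, gate (ls.length + 1) (l :: ls).flatten] : List (Fo V)) ++
          []).getD i (.var x0)) (by simp [Fm.len]) ?_ ?_
      · intro v hv
        have e0 := gate_resp hv ls.length ls.flatten
        have e1 := gate_resp hv 1 l
        have e2 := gate_resp hv (ls.length + 1) (l :: ls).flatten
        rw [List.flatten_cons, List.countP_append] at e2
        simp only [Fm.eval, List.cons_append, List.nil_append, List.getD_cons_zero, List.getD_cons_succ]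
        have e3 : v (gate ls.length ls.flatten) = true → v (gate 1 l) = true →
            v (gate (ls.length + 1) (l :: ls).flatten) = true := by
          intro h h'
          rw [List.flatten_cons, e2, add_comm ls.length 1]
          exact Nat.ModEq.add (show _ ≡ 1 [MOD m] from e1.1 h') (show _ ≡ ls.length [MOD m] from e0.1 h)
        revert e3
        generalize v (gate ls.length ls.flatten) = a
        generalize v (gate 1 l) = b
        generalize v (gate (ls.length + 1) (l :: ls).flatten) = c
        revert a b c
        decide
      · refine PL_inst (by omega) [gate ls.length ls.flatten, gate 1 l, gate (ls.length + 1) (l :: ls).flatten] [] _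
          (var_lf x0 (by omega)) ?_ (by simp) (by simp) _ (by simp [Fm.len]) (by simp [dpt])
        intro A hA
        simp only [List.mem_cons, List.not_mem_nil, or_false] at hA
        rcases hA with rfl | rfl | rfl
        · exact ⟨_, ls.flatten, rfl, by omega⟩
        · exact ⟨1, l, rfl, by omega⟩
        · refine ⟨_, (l :: ls).flatten, rfl, ?_⟩
          rw [List.flatten_cons, List.length_append]
          omega
    have h2 := ih (fun l' h => hlen l' (List.mem_cons_of_mem _ h)) (fun l' h => hT l' (List.mem_cons_of_mem _ h))
      (fun l' h => hex l' (List.mem_cons_of_mem _ h)) (by omega)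
    have h3 : Drv m 20 Hyp (PL (20 * L)) (6 * (l.length + 1) ^ 2) (.imp (T x0 l) (gate 1 l)) :=
      drvO x0 l (hex l (by simp)) (by omega)
    have h4 : Drv m 20 Hyp (PL (20 * L)) 1 (T x0 l) := Drv.hyp (hT l (by simp)) (T_lf x0 l (by omega)).PL
    refine ((h1.mp PL_imp h2).mp PL_imp (h3.mp PL_imp h4)).mono ?_
    have h5 : (l.length + 1) ^ 2 ≤ (s + 1) ^ 2 := Nat.pow_le_pow_left (by omega) 2
    rw [Nat.add_mul, one_mul]
    omega

end Pool.Agent.H65.RG
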