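import Pool.Agent.H65.RG.Easy

/-!
# The counting principle for blocks of size `r` has short refutations with few MOD gates, if `gcd (r, m)` does not
divide the number of points: the theorem
-/

set_option autoImplicit false
set_option linter.unusedSectionVars false

namespace Pool.Agent.H65.RG

open Pool.Agent.H3.Frg hiding ind
open Pool.Agent.H67.FG
open Pool.Agent.H93.RG (Count)

/-- the blocks at the point `a` -/
noncomputable def La (r : ℕ) {N : ℕ} (a : Fin N) : List (Finset (Fin N)) :=
  (Finset.univ.filter fun e : Finset (Fin N) => e.card = r ∧ a ∈ e).toList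

theorem mem_La {r N : ℕ} {a : Fin N} {e : Finset (Fin N)} : e ∈ La r a ↔ e.card = r ∧ a ∈ e := by
  unfold La
  simp

theorem La_length (r : ℕ) {N : ℕ} (a : Fin N) : (La r a).length ≤ N ^ r := by
  unfold La
  rw [Finset.length_toList]
  have h1 : (Finset.univ.filter fun e : Finset (Fin N) => e.card = r ∧ a ∈ e) ⊆
      Finset.powersetCard r Finset.univ := by
    intro e he
    rw [Finset.mem_filter] at he
    exact Finset.mem_powersetCard.2 ⟨Finset.subset_univ _, he.2.1⟩
  refine (Finset.card_le_card h1).trans ?_
  rw [Finset.card_powersetCard, Finset.card_univ, Fintype.card_fin]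
  exact Nat.choose_le_pow _ _

theorem countP_toList {α : Type} [DecidableEq α] (s : Finset α) (p : α → Bool) :
    s.toList.countP p = (s.filter fun x => p x = true).card := by
  rw [List.countP_eq_length_filter]
  have h : (s.toList.filter p).toFinset = s.filter fun x => p x = true := by
    ext x
    simp
  rw [← h, List.toFinset_card_of_nodup (s.nodup_toList.filter _)]

theorem countP_La (r : ℕ) {N : ℕ} (p : Finset (Fin N) → Bool) :
    ((List.finRange N).map (La r)).flatten.countP p =
      r * (Finset.univ.filter fun e : Finset (Fin N) => e.card = r ∧ p e = true).card := by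
  classical
  rw [List.countP_flatten, List.map_map]
  have h1 : ((List.finRange N).map (List.countP p ∘ La r)).sum = ∑ a : Fin N, (La r a).countP p := by
    rw [Fin.sum_univ_def]
    rfl
  rw [h1]
  set S := Finset.univ.filter fun e : Finset (Fin N) => e.card = r ∧ p e = true with hS
  have h2 : ∀ a : Fin N, (La r a).countP p = ∑ e ∈ S, if a ∈ e then 1 else 0 := by
    intro a
    unfold La
    rw [countP_toList, ← Finset.card_filter]
    congr 1
    ext e
    simp only [hS, Finset.mem_filter, Finset.mem_univ, true_and]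
    tauto
  rw [Finset.sum_congr rfl fun a _ => h2 a, Finset.sum_comm]
  have h3 : ∀ e ∈ S, (∑ a : Fin N, if a ∈ e then 1 else 0) = r := by
    intro e he
    rw [← Finset.card_filter]
    have : (Finset.univ.filter fun a : Fin N => a ∈ e) = e := by
      ext a
      simp
    rw [this]
    exact (Finset.mem_filter.1 he).2.1
  rw [Finset.sum_congr rfl h3, Finset.sum_const, smul_eq_mul, mul_comm]

/-- if `gcd (r, m)` does not divide `N`, the counting principle has refutations of polynomial size with at most three
MOD gates in each line -/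
theorem easy (r m N : ℕ) (hg : ¬ Nat.gcd r m ∣ N) : ∃ π : List (Fo (Finset (Fin N))),
    IsRef m 20 (Count r N) π ∧ (∀ A ∈ π, (∀ B ∈ A.subs, B.dep ≤ 6) ∧ Few 3 1 A) ∧
      size π ≤ 6400 * N ^ (3 * r + 2) := by
  have hN : 1 ≤ N := by
    rcases Nat.eq_zero_or_pos N with h | h
    · exact absurd (h ▸ dvd_zero _) hg
    · exact h
  set s := N ^ r with hs
  have hs1 : 1 ≤ s := Nat.one_le_pow _ _ hN
  set L := 3 * (N * s) + 3 * s + 4 with hL
  set ls := (List.finRange N).map (La r) with hls
  have hlen : ls.length = N := by rw [hls, List.length_map, List.length_finRange]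
  have h1 : Drv m 20 (Count r N) (PL (20 * L)) (N * (6 * (s + 1) ^ 2 + 5) + 1) (gate N ls.flatten) := by
    have h := drvQ (m := m) (Hyp := Count r N) (L := L) (s := s) (∅ : Finset (Fin N)) ls ?_ ?_ ?_ ?_
    · rw [hlen] at h
      exact h
    · intro l hl
      obtain ⟨a, -, rfl⟩ := List.mem_map.1 hl
      exact La_length r a
    · intro l hl
      obtain ⟨a, -, rfl⟩ := List.mem_map.1 hl
      refine Or.inr ⟨a, _, _, rfl, ?_⟩
      intro e he ha
      exact List.mem_cons_of_mem _ (List.mem_map.2 ⟨e, mem_La.2 ⟨he, ha⟩, rfl⟩)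
    · intro l hl
      obtain ⟨a, -, rfl⟩ := List.mem_map.1 hl
      have hnd : (La r a).Nodup := Finset.nodup_toList _
      refine List.Pairwise.imp_of_mem ?_ hnd
      intro x y hx hy hxy
      exact Or.inl ⟨a, x, y, (mem_La.1 hx).2, (mem_La.1 hy).2, hxy, rfl⟩
    · rw [hlen]
  have h2 : Drv m 20 (Count r N) (PL (20 * L)) 1 (.imp (gate N ls.flatten)
      (.neg (.imp (.var (∅ : Finset (Fin N))) (.var ∅)))) := by
    refine Drv.ax (k := 20) (.imp (.var 0) (.neg (.imp (.var 1) (.var 1))))
      (fun i => (([gate N ls.flatten] : List (Fo (Finset (Fin N)))) ++ []).getD i (.var ∅)) (by simp [Fm.len]) ?_ ?_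
    · intro v hv
      have h3 : v (gate N ls.flatten) = false := by
        by_contra h4
        have h5 := (gate_resp hv N ls.flatten).1 (by simpa using h4)
        rw [hls, countP_La] at h5
        apply hg
        rw [← Nat.ModEq.dvd_iff (show _ ≡ N [MOD m] from h5) (Nat.gcd_dvd_right r m)]
        exact Dvd.dvd.mul_right (Nat.gcd_dvd_left r m) _
      simp [Fm.eval, h3]
    · refine PL_inst (by omega) [gate N ls.flatten] [] _ (var_lf _ (by omega)) ?_ (by simp) (by simp) _
        (by simp [Fm.len]) (by simp [dpt])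
      intro A hA
      rw [List.mem_singleton] at hA
      refine ⟨N, ls.flatten, hA, ?_⟩
      have h3 : ls.flatten.length ≤ ls.length * s := by
        rw [List.length_flatten]
        have := List.sum_le_card_nsmul (ls.map List.length) s (by
          intro x hx
          obtain ⟨l', h1, rfl⟩ := List.mem_map.1 hx
          obtain ⟨a, -, rfl⟩ := List.mem_map.1 h1
          exact La_length r a)
        simpa using this
      rw [hlen] at h3
      omega
  obtain ⟨π, h3, h4, h5⟩ := Drv.ref PL_imp h2 h1
  refine ⟨π, h3, fun A hA => ⟨(h4 A hA).2.1, (h4 A hA).2.2⟩, ?_⟩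
  have h6 : size π ≤ π.length * (20 * L) := by
    unfold size
    have := List.sum_le_card_nsmul (π.map fun A => A.subs.length) (20 * L) (by
      intro x hx
      obtain ⟨A, h1, rfl⟩ := List.mem_map.1 hx
      exact (h4 A h1).1)
    simpa using this
  have h7 : π.length ≤ 32 * (N * s ^ 2) := by
    have e1 : (s + 1) ^ 2 ≤ 4 * s ^ 2 := by nlinarith
    have e2 : 1 ≤ s ^ 2 := Nat.one_le_pow _ _ hs1
    have e3 : N * (6 * (s + 1) ^ 2 + 5) ≤ N * (29 * s ^ 2) := Nat.mul_le_mul_left _ (by omega)
    have e4 : 1 ≤ N * s ^ 2 := Nat.mul_pos hN e2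
    have e5 : N * (29 * s ^ 2) = 29 * (N * s ^ 2) := by ring
    omega
  have h8 : L ≤ 10 * (N * s) := by
    have e1 : s ≤ N * s := Nat.le_mul_of_pos_left _ hN
    omega
  calc size π ≤ π.length * (20 * L) := h6
    _ ≤ (32 * (N * s ^ 2)) * (20 * (10 * (N * s))) := Nat.mul_le_mul h7 (Nat.mul_le_mul_left _ h8)
    _ = 6400 * (N ^ 2 * s ^ 3) := by ring
    _ = 6400 * N ^ (3 * r + 2) := by
      rw [hs, ← pow_mul, ← pow_add]
      congr 2
      ring

end Pool.Agent.H65.RG
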