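import Pool.Agent.H65.RG.Cpl
import Pool.Agent.H46.SF2.Cex

/-! # [SF2 K4] THE ALGORITHM: a curve with two places at infinity over `ℚ` has a certificate of type 2

`cer2_np`: `F` absolutely irreducible, not `OnePlace F`. The two places are in some function field `L` of the curve, `t = x + c y` is
transcendental because it is not in the valuation ring. -/

namespace Pool.Agent.H65.RG

open Pool.Agent.H98.AL Pool.Agent.H85.SA Pool.Agent.H82.NS Pool.Agent.H46.SF2 Pool.Agent.H12.SF2 Pool.Agent.H12.SF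
  Pool.Agent.H12.ON Pool.Agent.H12.OG Pool.Agent.H8.OA Pool.Agent.H46.SF

theorem cer2_np {F : P2} (hF : Irreducible (MvPolynomial.map (Int.castRingHom (AlgebraicClosure ℚ)) F))
    (h : ¬ OnePlace F) : ∃ (Z : ℕ) (d : Dr), Cer2 F Z d := by
  unfold OnePlace at h
  push Not at h
  obtain ⟨L, i1, i2, x, y, h0, hgen, V, W, hQ, hV, hW, hne⟩ := h
  have hmap : MvPolynomial.map (algebraMap ℚ (AlgebraicClosure ℚ)) (MvPolynomial.map (Int.castRingHom ℚ) F) =
      MvPolynomial.map (Int.castRingHom (AlgebraicClosure ℚ)) F := by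
    rw [MvPolynomial.map_map]
    congr 1
  have hirr : Irreducible (MvPolynomial.map (Int.castRingHom ℚ) F) := by
    refine irr_desc (algebraMap ℚ (AlgebraicClosure ℚ)) ?_
    rw [hmap]
    exact hF
  obtain ⟨d, hd⟩ : ∃ d, d = (MvPolynomial.map (Int.castRingHom ℚ) F).totalDegree := ⟨_, rfl⟩
  obtain ⟨c, -, hc⟩ := cor_ex (k := ℚ) hd.symm hirr.ne_zero
  have h0' : MvPolynomial.aeval ![x, y] (MvPolynomial.map (Int.castRingHom ℚ) F) = 0 := by
    rw [MvPolynomial.aeval_def, MvPolynomial.eval₂_map, ← h0]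
    congr 1
    exact RingHom.ext_int _ _
  have hcL : algebraMap ℚ L (c : ℚ) = (c : L) := map_natCast _ c
  have ix : IsInt ℚ (x + c * y) x := by
    have := cor_x hd.ge hc h0'
    rwa [hcL] at this
  have iy : IsInt ℚ (x + c * y) y := by
    have := cor_y hd.ge hc h0'
    rwa [hcL] at this
  have hVq : Ov ℚ V := fun r => (hQ r).1
  have hWq : Ov ℚ W := fun r => (hQ r).2
  have htV : x + c * y ∉ V := fun hm => hV (int_val ix hVq hm) (int_val iy hVq hm)
  have htW : x + c * y ∉ W := fun hm => hW (int_val ix hWq hm) (int_val iy hWq hm)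
  have htr : Transcendental ℚ (x + c * y) := fun halg => htV (val_alg hVq halg)
  have hfin : FiniteDimensional (IntermediateField.adjoin ℚ {x + c * y}) L := by
    have := (cor_fin hd.ge hc h0' hgen).1
    rwa [hcL] at this
  have ff : FF ℚ (x + c * y) := ⟨htr, hfin⟩
  exact cer2_ex (fld_of hirr hd.ge hc hgen h0 htr) ff (lc_of hd.ge hc).2 ⟨hVq, htV⟩ ⟨hWq, htW⟩ hne

end Pool.Agent.H65.RG
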