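import Mathlib.Computability.Primrec.Basic
import Pool.Agent.H65.RG.Def

/-! # [SF2 K4] The bound `Ph2` is primitive recursive -/

namespace Pool.Agent.H65.RG

private theorem pw {f g : ℕ → ℕ} (hf : Primrec f) (hg : Primrec g) : Primrec fun n => f n ^ g n := by
  have h2 : Primrec₂ fun (n : ℕ) (p : ℕ × ℕ) => p.2 * f n :=
    (Primrec.nat_mul.comp (Primrec.snd.comp Primrec.snd) (hf.comp Primrec.fst)).to₂
  refine (Primrec.nat_rec' hg (Primrec.const 1) h2).of_eq fun n => ?_
  generalize g n = k
  induction k with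
  | zero => rfl
  | succ k ih => rw [pow_succ, ← ih]

private theorem ad {f g : ℕ → ℕ} (hf : Primrec f) (hg : Primrec g) : Primrec fun n => f n + g n :=
  Primrec.nat_add.comp hf hg

private theorem mu {f g : ℕ → ℕ} (hf : Primrec f) (hg : Primrec g) : Primrec fun n => f n * g n :=
  Primrec.nat_mul.comp hf hg

theorem prim_K2 : Primrec K2 := by
  unfold K2
  exact mu (mu (Primrec.const 2) (pw Primrec.id (Primrec.const 2))) (ad (Primrec.const 1) (mu (Primrec.const 2) Primrec.id))

theorem prim_Z2' : Primrec Z2' := by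
  unfold Z2'
  exact mu (mu (ad Primrec.id (Primrec.const 1)) Primrec.id) (pw (mu Primrec.id prim_K2) Primrec.id)

theorem prim_Ph2 : Primrec Ph2 := by
  unfold Ph2
  exact mu (ad (Primrec.const 1) (mu (pw Primrec.id (Primrec.const 2)) (pw (ad Primrec.id (Primrec.const 1)) (Primrec.const 2))))
    (mu (Primrec.const 2) prim_Z2')

end Pool.Agent.H65.RG
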