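import Pool.Agent.H65.RG.Def
import Pool.Agent.H85.SA.Bds
import Pool.Agent.H98.AL.Lev

/-! # [SF2 K4] THE ALGORITHM: Runge's certificate is sound

`cer2_sound`: `Cer2 F Z d`, `(x, y)` an integer zero of `F`: `max |x| |y| ≤ Ph2 Z`. -/

namespace Pool.Agent.H65.RG

open Pool.Agent.H98.AL Pool.Agent.H85.SA

private theorem sz_range {Z : ℕ} {s : Polynomial ℤ} (h : Sz Z s) (M : ℕ) :
    ∑ i ∈ Finset.range M, |s.coeff i| ≤ (Z : ℤ) := by
  have h1 : ∑ i ∈ Finset.range M, |s.coeff i| ≤ ∑ i ∈ Finset.range (max M (Z + 1)), |s.coeff i| :=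
    Finset.sum_le_sum_of_subset_of_nonneg (Finset.range_mono (le_max_left _ _)) fun i _ _ => abs_nonneg _
  have h2 : ∑ i ∈ Finset.range (Z + 1), |s.coeff i| = ∑ i ∈ Finset.range (max M (Z + 1)), |s.coeff i| := by
    refine Finset.sum_subset (Finset.range_mono (le_max_right _ _)) fun i _ hi => ?_
    rw [Finset.mem_range, not_lt] at hi
    rw [Polynomial.coeff_eq_zero_of_natDegree_lt (by have := h.1; omega), abs_zero]
  rw [← h2] at h1
  exact h1.trans h.2

private theorem root_bd {W : Polynomial ℤ} {Z : ℕ} (h : Sz Z W) (h0 : W ≠ 0) {t : ℤ} (ht : W.eval t = 0)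
    (hZ : 1 ≤ Z) : |t| ≤ 2 * (Z : ℤ) := by
  by_contra hcon
  push Not at hcon
  have h1 : 2 * (Z : ℝ) ≤ |(t : ℝ)| := by
    have : (2 * (Z : ℤ) : ℤ) ≤ |t| := hcon.le
    exact_mod_cast this
  have hZ' : (1 : ℝ) ≤ Z := by exact_mod_cast hZ
  have h2 := sz_lo h h0 h1 (by linarith)
  have h3 : Polynomial.aeval (t : ℝ) W = 0 := by
    have h4 := congrArg (fun n : ℤ => (n : ℝ)) ht
    simp only [Int.cast_zero] at h4
    rw [← h4]
    have h5 := Polynomial.aeval_algebraMap_apply (A := ℤ) ℝ t W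
    rw [eq_intCast, eq_intCast, Polynomial.coe_aeval_eq_eval] at h5
    exact h5
  rw [h3, abs_zero, mul_zero] at h2
  have h4 : 0 < |(t : ℝ)| ^ W.natDegree := pow_pos (by linarith) _
  linarith

/-- the value of `φ` is bounded, so is `t` -/
private theorem rl_sound {G D A : P2} {Z K : ℕ} (hZ : 1 ≤ Z) (hK : 1 ≤ K) (h : Rl G Z D A) {t y : ℤ} (h0 : vl G t y = 0)
    (hD : vl D t y ≠ 0) {e : ℕ} {n : ℤ} (he : 1 ≤ e) (heZ : e ≤ Z) (hn : |n| ≤ (Z * K : ℕ))
    (hen : (e : ℤ) * vl A t y = n * vl D t y) : |t| ≤ 2 * (((Z + 1) * Z * (Z * K) ^ Z : ℕ) : ℤ) := by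
  obtain ⟨N, s, Q, t1, t2, U, V, N1, hN, hN1, hs, hrel, hbez⟩ := h
  obtain ⟨W, hW⟩ : ∃ W : Polynomial ℤ, W = ∑ j ∈ Finset.range (N + 1), s j * Polynomial.C (n ^ (N - j) * (e : ℤ) ^ j) :=
    ⟨_, rfl⟩
  have hWe : ∀ τ : ℤ, W.eval τ = ∑ j ∈ Finset.range (N + 1), (s j).eval τ * (n ^ (N - j) * (e : ℤ) ^ j) := by
    intro τ
    rw [hW, Polynomial.eval_finsetSum]
    refine Finset.sum_congr rfl fun j _ => ?_
    rw [Polynomial.eval_mul, Polynomial.eval_C]
  -- `t` is a zero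
  have hWt : W.eval t = 0 := by
    have h1 := congrArg (fun P => vl P t y) hrel
    simp only [vl_mul, h0, zero_mul] at h1
    have h2 : vl (∑ j ∈ Finset.range (N + 1), em (s j) * A ^ (N - j) * D ^ j) t y =
        ∑ j ∈ Finset.range (N + 1), (s j).eval t * vl A t y ^ (N - j) * vl D t y ^ j := by
      have h3 : ∀ (S : Finset ℕ) (f : ℕ → P2), vl (∑ j ∈ S, f j) t y = ∑ j ∈ S, vl (f j) t y := fun S f =>
        map_sum (MvPolynomial.eval₂Hom (Int.castRingHom ℤ) ![t, y]) f S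
      rw [h3]
      refine Finset.sum_congr rfl fun j _ => ?_
      rw [vl_mul, vl_mul, vl_pow, vl_pow, vl_em, Polynomial.coe_aeval_eq_eval]
    rw [h2] at h1
    have h4 : W.eval t * vl D t y ^ N = (e : ℤ) ^ N *
        ∑ j ∈ Finset.range (N + 1), (s j).eval t * vl A t y ^ (N - j) * vl D t y ^ j := by
      rw [hWe, Finset.sum_mul, Finset.mul_sum]
      refine Finset.sum_congr rfl fun j hj => ?_
      have hj' : N = (N - j) + j := by
        have := Finset.mem_range.1 hj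
        omega
      have e1 : vl D t y ^ N = vl D t y ^ (N - j) * vl D t y ^ j := by
        rw [← pow_add, ← hj']
      have e2 : (e : ℤ) ^ N = (e : ℤ) ^ (N - j) * (e : ℤ) ^ j := by
        rw [← pow_add, ← hj']
      rw [e1, e2]
      calc (s j).eval t * (n ^ (N - j) * (e : ℤ) ^ j) * (vl D t y ^ (N - j) * vl D t y ^ j)
          = (s j).eval t * (e : ℤ) ^ j * vl D t y ^ j * (n * vl D t y) ^ (N - j) := by
            rw [mul_pow]
            ring
        _ = (s j).eval t * (e : ℤ) ^ j * vl D t y ^ j * ((e : ℤ) * vl A t y) ^ (N - j) := by rw [hen]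
        _ = _ := by
            rw [mul_pow]
            ring
    rw [h1, mul_zero] at h4
    rcases mul_eq_zero.1 h4 with h5 | h5
    · exact h5
    · exact absurd h5 (pow_ne_zero _ hD)
  -- not identically zero
  have hW0 : W ≠ 0 := by
    intro h1
    have he0 : (e : ℚ) ≠ 0 := by
      have : e ≠ 0 := by omega
      exact_mod_cast this
    have h2 : ∀ τ : ℤ, Polynomial.aeval ((n : ℚ) / e) (spl N s τ) = 0 := by
      intro τ
      have h3 : (0 : ℚ) = ((W.eval τ : ℤ) : ℚ) := by rw [h1, Polynomial.eval_zero, Int.cast_zero]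
      have h4 : ((W.eval τ : ℤ) : ℚ) = (e : ℚ) ^ N * Polynomial.aeval ((n : ℚ) / e) (spl N s τ) := by
        rw [hWe, spl, map_sum, Finset.mul_sum]
        push_cast
        refine Finset.sum_congr rfl fun j hj => ?_
        have hj' : N = (N - j) + j := by
          have := Finset.mem_range.1 hj
          omega
        have e2 : (e : ℚ) ^ N = (e : ℚ) ^ (N - j) * (e : ℚ) ^ j := by
          rw [← pow_add, ← hj']
        rw [map_mul, Polynomial.aeval_C, map_pow, Polynomial.aeval_X, eq_intCast, e2, div_pow]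
        field_simp
      rw [h4] at h3
      rcases mul_eq_zero.1 h3.symm with h5 | h5
      · exact absurd h5 (pow_ne_zero _ he0)
      · exact h5
    have h3 : Polynomial.aeval ((n : ℚ) / e) (U * spl N s t1 + V * spl N s t2) =
        Polynomial.aeval ((n : ℚ) / e) (Polynomial.C N1) := by rw [hbez]
    rw [map_add, map_mul, map_mul, h2, h2, mul_zero, mul_zero, add_zero, Polynomial.aeval_C, eq_intCast] at h3
    exact hN1 (by exact_mod_cast h3.symm)
  -- the size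
  have hZK : 1 ≤ Z * K := Nat.one_le_iff_ne_zero.2 (Nat.mul_ne_zero (by omega) (by omega))
  have hfac : ∀ j ≤ N, |n ^ (N - j) * (e : ℤ) ^ j| ≤ (((Z * K) ^ Z : ℕ) : ℤ) := by
    intro j hj
    rw [abs_mul, abs_pow, abs_pow, Nat.abs_cast]
    have h1 : |n| ^ (N - j) ≤ (((Z * K : ℕ) : ℤ)) ^ (N - j) := pow_le_pow_left₀ (abs_nonneg _) hn _
    have h2 : (e : ℤ) ^ j ≤ (((Z * K : ℕ) : ℤ)) ^ j := by
      refine pow_le_pow_left₀ (by positivity) ?_ _
      have : e ≤ Z * K := heZ.trans (Nat.le_mul_of_pos_right _ hK)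
      exact_mod_cast this
    calc |n| ^ (N - j) * (e : ℤ) ^ j ≤ (((Z * K : ℕ) : ℤ)) ^ (N - j) * (((Z * K : ℕ) : ℤ)) ^ j :=
          mul_le_mul h1 h2 (by positivity) (by positivity)
      _ = (((Z * K : ℕ) : ℤ)) ^ N := by rw [← pow_add, Nat.sub_add_cancel hj]
      _ ≤ (((Z * K : ℕ) : ℤ)) ^ Z := pow_le_pow_right₀ (by exact_mod_cast hZK) hN
      _ = _ := by push_cast; rfl
  have hZ' : Z ≤ (Z + 1) * Z * (Z * K) ^ Z := by
    have h1 : 1 ≤ (Z * K) ^ Z := Nat.one_le_pow _ _ hZK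
    calc Z = 1 * Z * 1 := by ring
      _ ≤ (Z + 1) * Z * (Z * K) ^ Z := Nat.mul_le_mul (Nat.mul_le_mul (by omega) le_rfl) h1
  have hSz : Sz ((Z + 1) * Z * (Z * K) ^ Z) W := by
    refine ⟨?_, ?_⟩
    · rw [hW]
      refine Polynomial.natDegree_sum_le_of_forall_le _ _ fun j hj => ?_
      refine (Polynomial.natDegree_mul_C_le _ _).trans ?_
      exact ((hs j (by have := Finset.mem_range.1 hj; omega)).1).trans hZ'
    · have h1 : ∀ i, |W.coeff i| ≤ ∑ j ∈ Finset.range (N + 1), |(s j).coeff i| * (((Z * K) ^ Z : ℕ) : ℤ) := by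
        intro i
        rw [hW, Polynomial.finsetSum_coeff]
        refine (Finset.abs_sum_le_sum_abs _ _).trans (Finset.sum_le_sum fun j hj => ?_)
        rw [Polynomial.coeff_mul_C, abs_mul]
        exact mul_le_mul_of_nonneg_left (hfac j (by have := Finset.mem_range.1 hj; omega)) (abs_nonneg _)
      calc ∑ i ∈ Finset.range ((Z + 1) * Z * (Z * K) ^ Z + 1), |W.coeff i|
          ≤ ∑ i ∈ Finset.range ((Z + 1) * Z * (Z * K) ^ Z + 1),
            ∑ j ∈ Finset.range (N + 1), |(s j).coeff i| * (((Z * K) ^ Z : ℕ) : ℤ) :=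
            Finset.sum_le_sum fun i _ => h1 i
        _ = ∑ j ∈ Finset.range (N + 1), (∑ i ∈ Finset.range ((Z + 1) * Z * (Z * K) ^ Z + 1), |(s j).coeff i|) *
            (((Z * K) ^ Z : ℕ) : ℤ) := by
            rw [Finset.sum_comm]
            refine Finset.sum_congr rfl fun j _ => ?_
            rw [Finset.sum_mul]
        _ ≤ ∑ j ∈ Finset.range (N + 1), (Z : ℤ) * (((Z * K) ^ Z : ℕ) : ℤ) := by
            refine Finset.sum_le_sum fun j hj => ?_
            exact mul_le_mul_of_nonneg_right (sz_range (hs j (by have := Finset.mem_range.1 hj; omega)) _)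
              (by positivity)
        _ = ((N : ℤ) + 1) * ((Z : ℤ) * (((Z * K) ^ Z : ℕ) : ℤ)) := by
            rw [Finset.sum_const, Finset.card_range, nsmul_eq_mul]
            push_cast
            ring
        _ ≤ ((Z : ℤ) + 1) * ((Z : ℤ) * (((Z * K) ^ Z : ℕ) : ℤ)) := by
            refine mul_le_mul_of_nonneg_right ?_ (by positivity)
            have : (N : ℤ) ≤ Z := by exact_mod_cast hN
            linarith
        _ = _ := by
            push_cast
            ring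
  exact root_bd hSz hW0 hWt (hZ.trans hZ')

theorem cer2_sound {F : P2} {Z : ℕ} {d : Dr} (h : Cer2 F Z d) {x y : ℤ} (h0 : MvPolynomial.eval ![x, y] F = 0) :
    max |x| |y| ≤ (Ph2 Z : ℤ) := by
  obtain ⟨t, ht⟩ : ∃ t : ℤ, t = x + d.c * y := ⟨_, rfl⟩
  obtain ⟨G, hG⟩ : ∃ G, G = shf d.c F := ⟨_, rfl⟩
  have hZ1 : 1 ≤ Z := by have := h.Z2; omega
  have hZR : (1 : ℝ) ≤ Z := by exact_mod_cast hZ1
  have hG0 : vl G t y = 0 := by
    rw [hG, vl_shf, ht, add_sub_cancel_right, vl_eval]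
    exact h0
  have hK1 : 1 ≤ K2 Z := by
    unfold K2
    exact Nat.one_le_iff_ne_zero.2 (by positivity)
  have hZ'1 : Z ≤ Z2' Z := by
    unfold Z2'
    have h1 : 1 ≤ (Z * K2 Z) ^ Z := Nat.one_le_pow _ _ (Nat.one_le_iff_ne_zero.2 (Nat.mul_ne_zero (by omega) (by omega)))
    calc Z = 1 * Z * 1 := by ring
      _ ≤ (Z + 1) * Z * (Z * K2 Z) ^ Z := Nat.mul_le_mul (Nat.mul_le_mul (by omega) le_rfl) h1
  have htb : |t| ≤ 2 * (Z2' Z : ℤ) := by
    by_contra hcon
    push Not at hcon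
    have ht2 : 2 * (Z : ℝ) ≤ |(t : ℝ)| := by
      have h1 : (2 * (Z : ℤ) : ℤ) ≤ |t| := by
        have : (Z : ℤ) ≤ Z2' Z := by exact_mod_cast hZ'1
        linarith
      exact_mod_cast h1
    have ht1 : (1 : ℝ) ≤ |(t : ℝ)| := by linarith
    have hGR : vl G (t : ℝ) (y : ℝ) = 0 := by
      have h1 := vl_map (Int.castRingHom ℝ) G t y
      rw [hG0, map_zero] at h1
      exact h1.symm
    have hcast : ∀ P : P2, vl P (t : ℝ) (y : ℝ) = ((vl P t y : ℤ) : ℝ) := fun P =>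
      (vl_map (Int.castRingHom ℝ) P t y).symm
    have hDR : vl (em d.D) (t : ℝ) (y : ℝ) ≠ 0 := by
      rw [vl_em]
      intro h1
      have h2 := sz_lo h.DZ h.D0 ht2 ht1
      rw [h1, abs_zero, mul_zero] at h2
      have h4 : 0 < |(t : ℝ)| ^ d.D.natDegree := pow_pos (by linarith) _
      linarith
    have hDZ : vl (em d.D) t y ≠ 0 := by
      intro h1
      apply hDR
      rw [hcast, h1, Int.cast_zero]
    obtain ⟨δ, hδ⟩ : ∃ δ, δ = vl (em d.D) (t : ℝ) (y : ℝ) := ⟨_, rfl⟩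
    rw [← hδ] at hDR
    -- the functions
    obtain ⟨H, hH⟩ : ∃ H : ℕ → ℝ, ∀ i, H i = vl (d.h i) (t : ℝ) (y : ℝ) / δ := ⟨_, fun _ => rfl⟩
    obtain ⟨v, hv⟩ : ∃ v : ℝ, v = vl d.v (t : ℝ) (y : ℝ) / δ := ⟨_, rfl⟩
    have hvb : |v| ≤ 1 + 2 * Z := by
      rw [hv, hδ]
      exact bd_sound (hG ▸ h.bv) hGR (by rw [← hδ]; exact hDR) ht2 ht1
    have hsum : v * ∑ i ∈ Finset.range d.k, (d.cc i : ℝ) * H i = 1 := by
      have h1 := eqv_sound (S := ℝ) (hG ▸ h.eqs) hGR
      have h3 : ∀ (S : Finset ℕ) (f : ℕ → P2), vl (∑ j ∈ S, f j) (t : ℝ) (y : ℝ) = ∑ j ∈ S, vl (f j) (t : ℝ) (y : ℝ) :=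
        fun S f => map_sum (MvPolynomial.eval₂Hom (Int.castRingHom ℝ) ![(t : ℝ), (y : ℝ)]) f S
      rw [vl_mul, h3, vl_pow, ← hδ] at h1
      have h4 : ∑ i ∈ Finset.range d.k, (d.cc i : ℝ) * H i =
          (∑ i ∈ Finset.range d.k, vl (MvPolynomial.C (d.cc i) * d.h i) (t : ℝ) (y : ℝ)) / δ := by
        rw [Finset.sum_div]
        refine Finset.sum_congr rfl fun i _ => ?_
        rw [vl_mul, vl_C, hH]
        ring
      rw [h4, hv, div_mul_div_comm, h1, ← pow_two, div_self (pow_ne_zero _ hDR)]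
    -- one of the `h i` is not small
    obtain ⟨i, hik, hi⟩ : ∃ i < d.k, 1 ≤ (K2 Z : ℝ) * |H i| := by
      by_contra hcon2
      push Not at hcon2
      have h1 : |∑ i ∈ Finset.range d.k, (d.cc i : ℝ) * H i| * (1 + 2 * Z) ≤ 1 / 2 := by
        have h2 : |∑ i ∈ Finset.range d.k, (d.cc i : ℝ) * H i| ≤ ∑ i ∈ Finset.range d.k, (Z : ℝ) * |H i| := by
          refine (Finset.abs_sum_le_sum_abs _ _).trans (Finset.sum_le_sum fun i hi => ?_)
          rw [abs_mul]
          refine mul_le_mul_of_nonneg_right ?_ (abs_nonneg _)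
          have := h.ccZ i (Finset.mem_range.1 hi)
          exact_mod_cast this
        have h3 : ∀ i ∈ Finset.range d.k, (Z : ℝ) * |H i| * (1 + 2 * Z) ≤ 1 / (2 * Z) := by
          intro i hi
          have h4 := (hcon2 i (Finset.mem_range.1 hi)).le
          unfold K2 at h4
          push_cast at h4
          rw [le_div_iff₀ (by linarith)]
          calc (Z : ℝ) * |H i| * (1 + 2 * Z) * (2 * Z) = 2 * (Z : ℝ) ^ 2 * (1 + 2 * Z) * |H i| := by ring
            _ ≤ 1 := h4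
        calc |∑ i ∈ Finset.range d.k, (d.cc i : ℝ) * H i| * (1 + 2 * Z)
            ≤ (∑ i ∈ Finset.range d.k, (Z : ℝ) * |H i|) * (1 + 2 * Z) :=
              mul_le_mul_of_nonneg_right h2 (by linarith)
          _ = ∑ i ∈ Finset.range d.k, (Z : ℝ) * |H i| * (1 + 2 * Z) := by rw [Finset.sum_mul]
          _ ≤ ∑ i ∈ Finset.range d.k, (1 / (2 * (Z : ℝ))) := Finset.sum_le_sum h3
          _ = d.k * (1 / (2 * (Z : ℝ))) := by rw [Finset.sum_const, Finset.card_range, nsmul_eq_mul]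
          _ ≤ Z * (1 / (2 * (Z : ℝ))) := by
              refine mul_le_mul_of_nonneg_right ?_ (by positivity)
              exact_mod_cast h.kZ
          _ = 1 / 2 := by
              field_simp
      have h2 : (1 : ℝ) ≤ |∑ i ∈ Finset.range d.k, (d.cc i : ℝ) * H i| * (1 + 2 * Z) := by
        calc (1 : ℝ) = |v * ∑ i ∈ Finset.range d.k, (d.cc i : ℝ) * H i| := by rw [hsum, abs_one]
          _ = |v| * |∑ i ∈ Finset.range d.k, (d.cc i : ℝ) * H i| := abs_mul _ _
          _ ≤ (1 + 2 * Z) * |∑ i ∈ Finset.range d.k, (d.cc i : ℝ) * H i| :=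
              mul_le_mul_of_nonneg_right hvb (abs_nonneg _)
          _ = _ := mul_comm _ _
      linarith
    -- the value of `φ i`
    obtain ⟨φ, hφ⟩ : ∃ φ : ℝ, φ = vl (d.phi i) (t : ℝ) (y : ℝ) / δ := ⟨_, rfl⟩
    have heq : (1 + d.a * φ ^ 2) * H i = 1 := by
      have h1 := eqv_sound (S := ℝ) (hG ▸ h.eqh i hik) hGR
      rw [vl_mul, vl_add, vl_mul, vl_pow, vl_pow, vl_pow, vl_C, ← hδ] at h1
      rw [hφ, hH]
      field_simp
      push_cast at h1
      linear_combination h1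
    have ha : (1 : ℝ) ≤ d.a := by exact_mod_cast h.a1
    have hpos : 0 < 1 + d.a * φ ^ 2 := by positivity
    have hφ2 : φ ^ 2 ≤ K2 Z := by
      have h1 : (1 + d.a * φ ^ 2) * |H i| = 1 := by
        have h2 := congrArg abs heq
        rwa [abs_mul, abs_one, abs_of_pos hpos] at h2
      have h3 : 1 + d.a * φ ^ 2 ≤ K2 Z := by
        calc 1 + d.a * φ ^ 2 = (1 + d.a * φ ^ 2) * 1 := (mul_one _).symm
          _ ≤ (1 + d.a * φ ^ 2) * (K2 Z * |H i|) := mul_le_mul_of_nonneg_left hi hpos.le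
          _ = K2 Z * ((1 + d.a * φ ^ 2) * |H i|) := by ring
          _ = K2 Z := by rw [h1, mul_one]
      have h4 : φ ^ 2 ≤ d.a * φ ^ 2 := le_mul_of_one_le_left (sq_nonneg _) ha
      linarith
    have hKR : (1 : ℝ) ≤ K2 Z := by exact_mod_cast hK1
    have hφb : |φ| ≤ K2 Z := by
      rcases le_or_gt |φ| 1 with h1 | h1
      · exact h1.trans hKR
      · calc |φ| = |φ| * 1 := (mul_one _).symm
          _ ≤ |φ| * |φ| := mul_le_mul_of_nonneg_left h1.le (abs_nonneg _)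
          _ = φ ^ 2 := by rw [← pow_two, sq_abs]
          _ ≤ _ := hφ2
    obtain ⟨e, n, he, heZ, hen⟩ := ig_sound (hG ▸ h.ig i hik) hG0 hDZ
    have heR : (1 : ℝ) ≤ e := by exact_mod_cast he
    have hn : (n : ℝ) = e * φ := by
      have h1 := congrArg (fun m : ℤ => (m : ℝ)) hen
      simp only [Int.cast_mul, Int.cast_natCast] at h1
      rw [← hcast, ← hcast, ← hδ] at h1
      rw [hφ, mul_div_assoc', eq_div_iff hDR]
      exact h1.symm
    have hnb : |n| ≤ ((Z * K2 Z : ℕ) : ℤ) := by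
      have h1 : |(n : ℝ)| ≤ Z * K2 Z := by
        rw [hn, abs_mul, abs_of_nonneg (by linarith)]
        exact mul_le_mul (by exact_mod_cast heZ) hφb (abs_nonneg _) (by linarith)
      exact_mod_cast h1
    have hfin := rl_sound hZ1 hK1 (hG ▸ h.rl i hik) hG0 hDZ he heZ hnb hen
    have h9 : |t| ≤ 2 * (Z2' Z : ℤ) := by
      unfold Z2'
      exact hfin
    linarith
  -- the point
  have hX : (1 : ℤ) ≤ 2 * (Z2' Z : ℤ) := by
    have : (1 : ℤ) ≤ Z2' Z := by exact_mod_cast (hZ1.trans hZ'1)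
    linarith
  have hy := y_bd hZ1 h.dZ h.lc h.FZ (hG ▸ hG0) hX htb
  have hc : (d.c : ℤ) ≤ Z := by exact_mod_cast h.cZ
  have hx : |x| ≤ 2 * (Z2' Z : ℤ) + Z * (Z * (Z + 1) ^ 2 * (2 * (Z2' Z : ℤ))) := by
    have h1 : x = t - d.c * y := by rw [ht]; ring
    rw [h1]
    refine (abs_sub _ _).trans (add_le_add htb ?_)
    rw [abs_mul, Nat.abs_cast]
    exact mul_le_mul hc hy (abs_nonneg _) (by positivity)
  have hZZ : (1 : ℤ) ≤ Z := by exact_mod_cast hZ1
  have hP : (Ph2 Z : ℤ) = 2 * (Z2' Z : ℤ) + Z * (Z * (Z + 1) ^ 2 * (2 * (Z2' Z : ℤ))) := by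
    unfold Ph2
    push_cast
    ring
  rw [hP]
  refine max_le hx (hy.trans ?_)
  have h5 : (0 : ℤ) ≤ Z * (Z + 1) ^ 2 * (2 * (Z2' Z : ℤ)) := by positivity
  nlinarith

end Pool.Agent.H65.RG
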