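import Pool.Agent.H65.RG.Chr
import Pool.Agent.H93.RG.Flow
import Pool.Agent.H93.FG.Zal

/-!
# The Tseitin ideal modulo `r` of the complete graph with `q` vertices
-/

set_option autoImplicit false
set_option linter.unusedSectionVars false

namespace Pool.Agent.H65.RG

open Finset
open Pool.Agent.H93.RG (Ed flow ch Vio)
open Pool.Agent.H93.FG (bd mem_bd card_bd card_bd_le mem_bd_single num_third num_sixth num_two)
open Pool.Agent.H67.FG (ind Alg)

section Tse

variable {r q : ℕ} [NeZero r] {F : Type} [Field F]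

/-- coboundary -/
def cob (u : Fin q → ZMod r) : Ed q → ZMod r := fun e => u e.1.inf - u e.1.sup

theorem cob_mk (u : Fin q → ZMod r) {a b : Fin q} (h : ¬ (s(a, b)).IsDiag) :
    cob u ⟨s(a, b), h⟩ = if a < b then u a - u b else u b - u a := by
  unfold cob
  rw [Sym2.inf_mk, Sym2.sup_mk]
  split_ifs with hab
  · rw [inf_eq_left.2 hab.le, sup_eq_right.2 hab.le]
  · rw [inf_eq_right.2 (not_lt.1 hab), sup_eq_left.2 (not_lt.1 hab)]

theorem cob_add (u w : Fin q → ZMod r) : cob (u + w) = cob u + cob w := by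
  funext e
  simp only [cob, Pi.add_apply]
  ring

theorem cob_neg (u : Fin q → ZMod r) : cob (-u) = -cob u := by
  funext e
  simp only [cob, Pi.neg_apply]
  ring

theorem cob_zero : cob (0 : Fin q → ZMod r) = 0 := by
  funext e
  simp [cob]

theorem cob_ne_zero (u : Fin q → ZMod r) {a b : Fin q} (h : ¬ (s(a, b)).IsDiag) :
    cob u ⟨s(a, b), h⟩ ≠ 0 ↔ u a ≠ u b := by
  rw [cob_mk]
  split_ifs with hab
  · rw [sub_ne_zero]
  · rw [sub_ne_zero]
    exact ne_comm

theorem bd_sub (u : Fin q → ZMod r) : bd (supp u) ⊆ supp (cob u) := by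
  rintro ⟨e, he⟩ h
  induction e using Sym2.ind with
  | _ a b =>
    rw [mem_bd, mem_supp, mem_supp] at h
    rw [mem_supp, cob_ne_zero]
    intro hab
    exact h (by rw [hab])

theorem card_cob (u : Fin q → ZMod r) : (supp u).card * (q - (supp u).card) ≤ (supp (cob u)).card :=
  (card_bd (supp u)).trans (card_le_card (bd_sub u))

theorem card_cob_single (a : Fin q) (z : ZMod r) : (supp (cob (Pi.single a z : Fin q → ZMod r))).card ≤ q - 1 := by
  refine (card_le_card ?_).trans (card_bd_le a)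
  rintro ⟨e, he⟩ h
  induction e using Sym2.ind with
  | _ b c =>
    rw [mem_supp, cob_ne_zero] at h
    rw [mem_bd_single, Sym2.mem_iff]
    by_contra h1
    push Not at h1
    exact h (by rw [Pi.single_eq_of_ne (M := fun _ => ZMod r) h1.1.symm,
      Pi.single_eq_of_ne (M := fun _ => ZMod r) h1.2.symm])

theorem cob_eq_zero {u : Fin q → ZMod r} (h : cob u = 0) (hu : (supp u).card < q) : u = 0 := by
  have h1 := card_cob u
  rw [h, supp_zero, card_empty] at h1
  have h2 : (supp u).card = 0 := by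
    by_contra h3
    have h4 : 0 < (supp u).card * (q - (supp u).card) := Nat.mul_pos (Nat.pos_of_ne_zero h3) (by omega)
    omega
  rw [card_eq_zero] at h2
  funext a
  by_contra h3
  have h4 := mem_supp.2 h3
  rw [h2] at h4
  exact absurd h4 (notMem_empty a)

theorem cob_inj {u w : Fin q → ZMod r} (h : cob u = cob w) (hu : 2 * (supp u).card < q)
    (hw : 2 * (supp w).card < q) : u = w := by
  have h1 : cob (u + -w) = 0 := by rw [cob_add, cob_neg, h, add_neg_cancel]
  have h2 := supp_add u (-w)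
  rw [supp_neg] at h2
  have h3 := cob_eq_zero h1 (by omega)
  rw [← sub_eq_add_neg] at h3
  exact sub_eq_zero.1 h3

/-- the sign -/
def sg (ψ : AddChar (ZMod r) F) (c : ℕ) (u : Fin q → ZMod r) : F := ψ (-∑ a, u a * ch r c a)

variable {ψ : AddChar (ZMod r) F} {c : ℕ}

theorem sg_add (u w : Fin q → ZMod r) : sg ψ c (u + w) = sg ψ c u * sg ψ c w := by
  unfold sg
  rw [← AddChar.map_add_eq_mul, ← neg_add, ← sum_add_distrib]
  congr 2
  exact sum_congr rfl fun a _ => by rw [Pi.add_apply, add_mul]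

theorem sg_zero : sg ψ c (0 : Fin q → ZMod r) = 1 := by
  unfold sg
  simp

theorem sg_neg (u : Fin q → ZMod r) : sg ψ c u * sg ψ c (-u) = 1 := by
  rw [← sg_add, add_neg_cancel, sg_zero]

theorem sg_ne (u : Fin q → ZMod r) : sg ψ c u ≠ 0 := by
  intro h
  have h1 := sg_neg (ψ := ψ) (c := c) u
  rw [h, zero_mul] at h1
  exact zero_ne_one h1

/-- the ideal up to degree `k` -/
def Zk (q : ℕ) (ψ : AddChar (ZMod r) F) (c k : ℕ) : Submodule F ((Ed q → ZMod r) → F) :=
  Submodule.span F {f | ∃ (s : Ed q → ZMod r) (u : Fin q → ZMod r), (supp s).card ≤ k ∧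
    (supp (s + cob u)).card ≤ k ∧ 2 * (supp u).card < q ∧
    f = chi ψ s - sg ψ c u • chi ψ (s + cob u)}

theorem zk_mono {a b : ℕ} (h : a ≤ b) : Zk q ψ c a ≤ Zk q ψ c b := by
  apply Submodule.span_mono
  rintro f ⟨s, u, h1, h2, h3, rfl⟩
  exact ⟨s, u, h1.trans h, h2.trans h, h3, rfl⟩

theorem zk_mul {a b : ℕ} {f g : (Ed q → ZMod r) → F} (hf : f ∈ Zk q ψ c a) (hg : g ∈ Dg (Ed q) ψ b) :
    f * g ∈ Zk q ψ c (a + b) := by
  have h1 : f * g ∈ Zk q ψ c a * Dg (Ed q) ψ b := Submodule.mul_mem_mul hf hg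
  unfold Zk Dg at h1
  rw [Submodule.span_mul_span] at h1
  revert h1
  apply SetLike.le_def.1
  rw [Submodule.span_le]
  rintro _ ⟨_, ⟨s, u, h1, h2, h3, rfl⟩, _, ⟨t, ht, rfl⟩, rfl⟩
  show (chi ψ s - sg ψ c u • chi ψ (s + cob u)) * chi ψ t ∈ _
  rw [sub_mul, smul_mul_assoc, chi_mul, chi_mul, add_right_comm]
  apply Submodule.subset_span
  refine ⟨s + t, u, (supp_add s t).trans (Nat.add_le_add h1 ht), ?_, h3, rfl⟩
  rw [add_right_comm]
  exact (supp_add _ t).trans (Nat.add_le_add h2 ht)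

theorem small_third {k : ℕ} (hk : 9 * k < q * q) {u : Fin q → ZMod r} (hu : 2 * (supp u).card < q)
    (h : (supp (cob u)).card ≤ 2 * k) : 3 * (supp u).card < q :=
  num_third hk hu ((card_cob u).trans h)

theorem card_of_eq {k : ℕ} {s t : Ed q → ZMod r} {u : Fin q → ZMod r} (hs : (supp s).card ≤ k)
    (ht : (supp t).card ≤ k) (h : t = s + cob u) : (supp (cob u)).card ≤ 2 * k := by
  have h2 : cob u = t + -s := by
    rw [h, add_comm s, add_neg_cancel_right]
  rw [h2]
  have h3 := supp_add t (-s)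
  rw [supp_neg] at h3
  omega

/-- transitivity with signs -/
theorem shift_two {k : ℕ} (hk : 9 * k < q * q) {s t v : Ed q → ZMod r} {u w : Fin q → ZMod r}
    (hs : (supp s).card ≤ k) (ht : (supp t).card ≤ k) (hv : (supp v).card ≤ k) (hu : 2 * (supp u).card < q)
    (hw : 2 * (supp w).card < q) (h1 : t = s + cob u) (h2 : v = t + cob w) :
    2 * (supp (u + w)).card < q ∧ v = s + cob (u + w) := by
  have h3 := small_third hk hu (card_of_eq hs ht h1)
  have h4 := small_third hk hw (card_of_eq ht hv h2)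
  have h5 : v = s + cob (u + w) := by
    rw [h2, h1, cob_add, add_assoc]
  have h6 := supp_add u w
  have h7 := num_two hk (a := (supp (u + w)).card) (by omega) ((card_cob _).trans (card_of_eq hs hv h5))
  exact ⟨by omega, h5⟩

open scoped Classical in
/-- the class of `s` -/
noncomputable def cls (k : ℕ) (s : Ed q → ZMod r) : Finset (Ed q → ZMod r) :=
  univ.filter fun t => (supp t).card ≤ k ∧ ∃ u : Fin q → ZMod r, 2 * (supp u).card < q ∧ t = s + cob u

theorem mem_cls {k : ℕ} {s t : Ed q → ZMod r} :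
    t ∈ cls k s ↔ (supp t).card ≤ k ∧ ∃ u : Fin q → ZMod r, 2 * (supp u).card < q ∧ t = s + cob u := by
  unfold cls
  simp

theorem cls_eq {k : ℕ} (hk : 9 * k < q * q) {s t : Ed q → ZMod r} {u : Fin q → ZMod r}
    (hs : (supp s).card ≤ k) (ht : (supp t).card ≤ k) (hu : 2 * (supp u).card < q) (h1 : t = s + cob u) :
    cls k s = cls k t := by
  have h1' : s = t + cob (-u) := by
    rw [h1, cob_neg, add_neg_cancel_right]
  have hu' : 2 * (supp (-u)).card < q := by rwa [supp_neg]
  ext v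
  rw [mem_cls, mem_cls]
  constructor
  · rintro ⟨hv, w, hw, h2⟩
    obtain ⟨h3, h4⟩ := shift_two hk ht hs hv hu' hw h1' h2
    exact ⟨hv, _, h3, h4⟩
  · rintro ⟨hv, w, hw, h2⟩
    obtain ⟨h3, h4⟩ := shift_two hk hs ht hv hu hw h1 h2
    exact ⟨hv, _, h3, h4⟩

theorem self_mem_cls {k : ℕ} (hq : 0 < q) {s : Ed q → ZMod r} (hs : (supp s).card ≤ k) : s ∈ cls k s := by
  rw [mem_cls]
  refine ⟨hs, 0, by rw [supp_zero]; simpa using hq, ?_⟩
  rw [cob_zero, add_zero]

open scoped Classical in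
/-- a member of least degree -/
noncomputable def rep (C : Finset (Ed q → ZMod r)) : Ed q → ZMod r :=
  if h : C.Nonempty then Classical.choose (exists_min_image C (fun t => (supp t).card) h) else 0

theorem rep_spec {C : Finset (Ed q → ZMod r)} (h : C.Nonempty) :
    rep C ∈ C ∧ ∀ t ∈ C, (supp (rep C)).card ≤ (supp t).card := by
  unfold rep
  rw [dif_pos h]
  exact Classical.choose_spec (exists_min_image C (fun t => (supp t).card) h)

open scoped Classical in
/-- the sign between two members of a class -/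
noncomputable def gn (ψ : AddChar (ZMod r) F) (c : ℕ) (s t : Ed q → ZMod r) : F :=
  if h : ∃ u : Fin q → ZMod r, 2 * (supp u).card < q ∧ t = s + cob u then sg ψ c (Classical.choose h) else 0

theorem gn_eq {s t : Ed q → ZMod r} {u : Fin q → ZMod r} (hu : 2 * (supp u).card < q) (h : t = s + cob u) :
    gn ψ c s t = sg ψ c u := by
  unfold gn
  have h1 : ∃ u : Fin q → ZMod r, 2 * (supp u).card < q ∧ t = s + cob u := ⟨u, hu, h⟩
  rw [dif_pos h1]
  obtain ⟨h2, h3⟩ := Classical.choose_spec h1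
  congr 1
  exact cob_inj (add_left_cancel (h3.symm.trans h)) h2 hu

/-- the reduction to representatives -/
theorem red_exists (hψ : ψ.IsPrimitive) (hr : (r : F) ≠ 0) (c : ℕ) {k : ℕ} (hk : 9 * k < q * q) (hq : 0 < q) :
    ∃ L : ((Ed q → ZMod r) → F) →ₗ[F] ((Ed q → ZMod r) → F), (∀ f ∈ Zk q ψ c k, L f = 0) ∧
      ∀ s : Ed q → ZMod r, (supp s).card ≤ k → ∃ (u : Fin q → ZMod r) (t : Ed q → ZMod r),
        2 * (supp u).card < q ∧ t = s + cob u ∧ (supp t).card ≤ (supp s).card ∧
        L (chi ψ s) = sg ψ c u • chi ψ t := by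
  obtain ⟨L, hL⟩ := lin_ext hψ hr (E := Ed q)
    (fun s => gn ψ c s (rep (cls k s)) • chi ψ (rep (cls k s)))
  refine ⟨L, ?_, ?_⟩
  · have h1 : Zk q ψ c k ≤ LinearMap.ker L := by
      unfold Zk
      rw [Submodule.span_le]
      rintro _ ⟨s, u, h3, h4, h5, rfl⟩
      show _ ∈ LinearMap.ker _
      rw [LinearMap.mem_ker, map_sub, map_smul, hL, hL]
      have hc := cls_eq hk h3 h4 h5 rfl
      rw [← hc]
      have hne : (cls k s).Nonempty := ⟨s, self_mem_cls hq h3⟩
      obtain ⟨h6, _⟩ := rep_spec hne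
      set ρ := rep (cls k s) with hρ
      rw [mem_cls] at h6
      obtain ⟨h7, w, h8, h9⟩ := h6
      have h11 : s = (s + cob u) + cob (-u) := by
        rw [cob_neg, add_neg_cancel_right]
      have h5' : 2 * (supp (-u)).card < q := by rwa [supp_neg]
      obtain ⟨h12, h13⟩ := shift_two hk h4 h3 h7 h5' h8 h11 h9
      rw [gn_eq h8 h9, gn_eq h12 h13, sg_add, smul_smul, ← mul_assoc, sg_neg, one_mul, sub_self]
    intro f hf
    exact LinearMap.mem_ker.1 (h1 hf)
  · intro s hs
    have hne : (cls k s).Nonempty := ⟨s, self_mem_cls hq hs⟩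
    obtain ⟨h6, h7⟩ := rep_spec hne
    have h8 := h7 s (self_mem_cls hq hs)
    rw [mem_cls] at h6
    obtain ⟨h9, w, h10, h11⟩ := h6
    exact ⟨w, rep (cls k s), h10, h11, h8, by rw [hL, gn_eq h10 h11]⟩

theorem zk_of_dg (hψ : ψ.IsPrimitive) (hr : (r : F) ≠ 0) {k b : ℕ} (hk : 9 * k < q * q) (hb : b ≤ k)
    {f : (Ed q → ZMod r) → F} (hf : f ∈ Zk q ψ c k) (hd : f ∈ Dg (Ed q) ψ b) : f ∈ Zk q ψ c b := by
  have hq : 0 < q := by
    by_contra h0
    have : q = 0 := by omega
    subst this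
    omega
  obtain ⟨L, hL0, hL⟩ := red_exists hψ hr c hk hq
  have h1 : ∀ g ∈ Dg (Ed q) ψ b, g - L g ∈ Zk q ψ c b := by
    intro g hg
    unfold Dg at hg
    induction hg using Submodule.span_induction with
    | mem g hg =>
      obtain ⟨s, hs, rfl⟩ := hg
      obtain ⟨u, t, h2, h3, h4, h5⟩ := hL s (hs.trans hb)
      rw [h5]
      apply Submodule.subset_span
      refine ⟨s, u, hs, ?_, h2, by rw [← h3]⟩
      rw [← h3]
      exact h4.trans hs
    | zero => simp
    | add g g' _ _ h h' =>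
      rw [map_add]
      have : g + g' - (L g + L g') = (g - L g) + (g' - L g') := by ring
      rw [this]
      exact Submodule.add_mem _ h h'
    | smul c g _ h =>
      rw [map_smul, ← smul_sub]
      exact Submodule.smul_mem _ _ h
  have h3 := h1 f hd
  rw [hL0 f hf, sub_zero] at h3
  exact h3

/-- one is not in the ideal -/
theorem one_notMem_zk (hψ : ψ.IsPrimitive) (hr : (r : F) ≠ 0) {k : ℕ} (hk : 9 * k < q * q) :
    (1 : (Ed q → ZMod r) → F) ∉ Zk q ψ c k := by
  intro h
  have hq : 0 < q := by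
    by_contra h0
    have : q = 0 := by omega
    subst this
    omega
  obtain ⟨L, hL0, hL⟩ := red_exists hψ hr c hk hq
  obtain ⟨u, t, -, -, -, h5⟩ := hL 0 (by rw [supp_zero]; simp)
  rw [chi_zero, hL0 1 h] at h5
  have h6 := congrFun h5 0
  simp only [Pi.zero_apply, Pi.smul_apply, smul_eq_mul] at h6
  have h7 : chi ψ t 0 = 1 := by simp [chi]
  rw [h7, mul_one] at h6
  exact sg_ne u h6.symm

/-- the character of the coboundary of one vertex -/
theorem sum_cob_single (a : Fin q) (z : ZMod r) (y : Ed q → ZMod r) :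
    ∑ e, cob (Pi.single a z : Fin q → ZMod r) e * y e = z * ∑ b, flow y a b := by
  have h0 : ∀ b : Fin q, b ≠ a → ¬ (s(a, b)).IsDiag := fun b hb h => hb (by simpa using h : a = b).symm
  let φ : {b : Fin q // b ≠ a} → Ed q := fun b => ⟨s(a, b.1), h0 b.1 b.2⟩
  have hφ : Function.Injective φ := by
    intro b b' h
    have h1 : s(a, b.1) = s(a, b'.1) := congrArg Subtype.val h
    rw [Sym2.eq_iff] at h1
    rcases h1 with h1 | h1
    · exact Subtype.ext h1.2
    · exact Subtype.ext (h1.2.trans h1.1)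
  have h1 : ∑ b : {b : Fin q // b ≠ a}, z * flow y a b.1 =
      ∑ e, cob (Pi.single a z : Fin q → ZMod r) e * y e := by
    apply Fintype.sum_of_injective φ hφ
    · rintro ⟨e, he⟩ hn
      have h2 : cob (Pi.single a z : Fin q → ZMod r) ⟨e, he⟩ = 0 := by
        by_contra h3
        apply hn
        induction e using Sym2.ind with
        | _ b d =>
          have h4 := (cob_ne_zero _ he).1 h3
          by_cases hb : b = a
          · subst hb
            have hd : d ≠ b := fun h => he (by simp [h])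
            exact ⟨⟨d, hd⟩, rfl⟩
          · by_cases hd : d = a
            · subst hd
              refine ⟨⟨b, hb⟩, ?_⟩
              apply Subtype.ext
              exact Sym2.eq_swap
            · exact absurd (by rw [Pi.single_eq_of_ne (M := fun _ => ZMod r) hb,
                Pi.single_eq_of_ne (M := fun _ => ZMod r) hd]) h4
      rw [h2, zero_mul]
    · rintro ⟨b, hb⟩
      show z * flow y a b = cob (Pi.single a z : Fin q → ZMod r) ⟨s(a, b), h0 b hb⟩ * y ⟨s(a, b), h0 b hb⟩
      rw [cob_mk, Pi.single_eq_same, Pi.single_eq_of_ne (M := fun _ => ZMod r) hb]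
      unfold flow
      rw [dif_neg (h0 b hb)]
      split_ifs
      · ring
      · ring
  rw [← h1, ← mul_sum]
  congr 1
  rw [← Fintype.sum_subtype_add_sum_subtype (fun b => b ≠ a) (fun b => flow y a b)]
  have h2 : ∑ b : {b : Fin q // ¬ b ≠ a}, flow y a b.1 = 0 := by
    apply sum_eq_zero
    rintro ⟨b, hb⟩ _
    have hb' : b = a := not_not.1 hb
    subst hb'
    unfold flow
    rw [dif_pos (by simp)]
  rw [h2, add_zero]

theorem sg_single (a : Fin q) (z : ZMod r) :
    sg ψ c (Pi.single a z : Fin q → ZMod r) = ψ (-(z * ch r c a)) := by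
  unfold sg
  congr 2
  rw [sum_eq_single a]
  · rw [Pi.single_eq_same]
  · intro b _ hb
    rw [Pi.single_eq_of_ne (M := fun _ => ZMod r) hb, zero_mul]
  · intro h
    exact absurd (mem_univ a) h

theorem vio_mem (hψ : ψ.IsPrimitive) (hr : (r : F) ≠ 0) (hq : 3 < q) (a : Fin q) :
    (ind (fun y : Ed q → ZMod r => Vio c a y) : (Ed q → ZMod r) → F) ∈ Zk q ψ c (q - 1) := by
  have h : (ind (fun y : Ed q → ZMod r => Vio c a y) : (Ed q → ZMod r) → F) =
      ∑ z : ZMod r, (r : F)⁻¹ • (chi ψ 0 - sg ψ c (Pi.single a z : Fin q → ZMod r) •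
        chi ψ (0 + cob (Pi.single a z : Fin q → ZMod r))) := by
    funext y
    rw [Finset.sum_apply]
    have h1 : ∀ z : ZMod r, ((r : F)⁻¹ • (chi ψ 0 - sg ψ c (Pi.single a z : Fin q → ZMod r) •
        chi ψ (0 + cob (Pi.single a z : Fin q → ZMod r))) : (Ed q → ZMod r) → F) y =
        (r : F)⁻¹ - (r : F)⁻¹ * ψ (z * (∑ b, flow y a b - ch r c a)) := by
      intro z
      rw [zero_add, chi_zero, sg_single]
      simp only [Pi.smul_apply, Pi.sub_apply, Pi.one_apply, smul_eq_mul]
      have h2 : chi ψ (cob (Pi.single a z : Fin q → ZMod r)) y = ψ (z * ∑ b, flow y a b) := by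
        unfold chi
        rw [sum_cob_single]
      rw [h2, ← AddChar.map_add_eq_mul, mul_sub, mul_one]
      congr 3
      ring
    rw [sum_congr rfl fun z _ => h1 z, sum_sub_distrib, ← mul_sum, AddChar.sum_mulShift _ hψ, sum_const, card_univ,
      ZMod.card, nsmul_eq_mul, mul_inv_cancel₀ hr]
    unfold ind Vio
    by_cases h3 : ∑ b, flow y a b = ch r c a
    · rw [if_neg (not_not.2 h3), if_pos (sub_eq_zero.2 h3), inv_mul_cancel₀ hr, sub_self]
    · rw [if_pos h3, if_neg fun h4 => h3 (sub_eq_zero.1 h4), Nat.cast_zero, mul_zero, sub_zero]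
  rw [h]
  apply Submodule.sum_mem
  intro z _
  apply Submodule.smul_mem
  apply Submodule.subset_span
  refine ⟨0, Pi.single a z, by rw [supp_zero]; simp, ?_, ?_, rfl⟩
  · rw [zero_add]
    exact card_cob_single a z
  · have := supp_single (r := r) a z
    omega

/-- the algebra over a field with a primitive character -/
noncomputable def alg (hψ : ψ.IsPrimitive) (hr : (r : F) ≠ 0) (c K : ℕ) (hK : 9 * K < q ^ 2) :
    Alg F (Ed q → ZMod r) where
  Deg := Dg (Ed q) ψ
  Z := Zk q ψ c K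
  K := K
  one := one_mem
  mono := dg_mono
  mul := dg_mul
  zmul := by
    intro a b f h hab hf hh hz
    have h1 : h ∈ Zk q ψ c b := zk_of_dg hψ hr (by rw [← sq]; exact hK) (by omega) hz hh
    rw [mul_comm]
    exact zk_mono (by omega) (zk_mul h1 hf)
  ne := one_notMem_zk hψ hr (by rw [← sq]; exact hK)

end Tse

section Res

variable {k F Y : Type} [Field k] [Field F] [Algebra k F]

/-- a function with values in the small field as a function with values in the large one -/
def ext (k F Y : Type) [Field k] [Field F] [Algebra k F] : (Y → k) →ₗ[k] (Y → F) :=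
  (Algebra.linearMap k F).compLeft Y

theorem ext_apply (f : Y → k) (y : Y) : ext k F Y f y = algebraMap k F (f y) := rfl

theorem ext_mul (f g : Y → k) : ext k F Y (f * g) = ext k F Y f * ext k F Y g := by
  funext y
  simp [ext_apply]

theorem ext_one : ext k F Y 1 = 1 := by
  funext y
  simp [ext_apply]

theorem ext_ind (P : Y → Prop) : ext k F Y (ind P) = ind P := by
  funext y
  rw [ext_apply]
  unfold ind
  split_ifs
  · exact map_one _
  · exact map_zero _

/-- restriction of scalars -/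
def res (𝓐 : Alg F Y) : Alg k Y where
  Deg n := ((𝓐.Deg n).restrictScalars k).comap (ext k F Y)
  Z := (𝓐.Z.restrictScalars k).comap (ext k F Y)
  K := 𝓐.K
  one n := by
    show ext k F Y 1 ∈ 𝓐.Deg n
    rw [ext_one]
    exact 𝓐.one n
  mono := by
    intro a b h f hf
    exact 𝓐.mono h hf
  mul := by
    intro a b f g hf hg
    show ext k F Y (f * g) ∈ 𝓐.Deg (a + b)
    rw [ext_mul]
    exact 𝓐.mul hf hg
  zmul := by
    intro a b f h hab hf hh hz
    show ext k F Y (f * h) ∈ 𝓐.Z
    rw [ext_mul]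
    exact 𝓐.zmul hab hf hh hz
  ne := by
    intro h
    have h1 : ext k F Y 1 ∈ 𝓐.Z := h
    rw [ext_one] at h1
    exact 𝓐.ne h1

end Res

/-- the algebra: local functions have low degree, violations are in `Z` -/
theorem alg_exists (p : ℕ) [Fact p.Prime] (r : ℕ) (hr : 2 ≤ r) (hpr : ¬ p ∣ r) (q K c : ℕ) (hq : 3 < q)
    (hK : 9 * K < q ^ 2) (hqK : q - 1 ≤ K) : ∃ 𝓐 : Alg (ZMod p) (Ed q → ZMod r), 𝓐.K = K ∧
      (∀ (S : Finset (Ed q)) (f : (Ed q → ZMod r) → ZMod p), (∀ y y', (∀ e ∈ S, y e = y' e) → f y = f y') →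
        f ∈ 𝓐.Deg S.card) ∧ ∀ a : Fin q, ind (fun y => Vio c a y) ∈ 𝓐.Z := by
  have : NeZero r := ⟨by omega⟩
  have hrF : (r : AlgebraicClosure (ZMod p)) ≠ 0 := by
    intro h
    exact hpr ((CharP.cast_eq_zero_iff (AlgebraicClosure (ZMod p)) p r).1 h)
  have : NeZero (r : AlgebraicClosure (ZMod p)) := ⟨hrF⟩
  obtain ⟨ζ, hζ⟩ := HasEnoughRootsOfUnity.exists_primitiveRoot (AlgebraicClosure (ZMod p)) r
  have hψ := AddChar.zmodChar_primitive_of_primitive_root r hζ
  refine ⟨res (alg hψ hrF c K hK), rfl, ?_, ?_⟩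
  · intro S f hf
    show ext (ZMod p) (AlgebraicClosure (ZMod p)) _ f ∈ Dg (Ed q) _ S.card
    apply dg_junta hψ hrF
    intro y y' h
    rw [ext_apply, ext_apply, hf y y' h]
  · intro a
    show ext (ZMod p) (AlgebraicClosure (ZMod p)) _ (ind (fun y => Vio c a y)) ∈ Zk q _ c K
    rw [ext_ind]
    exact zk_mono hqK (vio_mem hψ hrF hq a)

end Pool.Agent.H65.RG
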